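import Pool.Agent.Lib.MP_6e81d8_ag.H93.GenDef

/-!
Rational points in general position, from a `p`-adic absolute value.
-/

set_option autoImplicit false

namespace Pool.Agent.Lib.MP_6e81d8_ag.H93

open Polynomial Finset

theorem gen_auxA {K ι : Type} [Field K] [DecidableEq ι] (v : AbsoluteValue K ℝ)
    (hv : IsNonarchimedean v) (x : ι → K) (hx : ∀ i j, i ≠ j → v (x i - x j) = 1) (α : ℝ) :
    ∀ (d : ℕ) (f : K[X]) (S : Finset ι), f.natDegree ≤ d → S.card = d + 1 →
      (∀ j ∈ S, v (f.eval (x j)) < α) → ∀ l, v (f.eval (x l)) < α := by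
  intro d
  induction d with
  | zero =>
    intro f S hf hS h l
    obtain ⟨j, hj⟩ := Finset.card_pos.mp (show 0 < S.card by omega)
    have := h j hj
    rw [eq_C_of_natDegree_le_zero hf] at this ⊢
    simpa using this
  | succ d ih =>
    intro f S hf hS h l
    obtain ⟨j0, hj0⟩ := Finset.card_pos.mp (show 0 < S.card by omega)
    have key : ∀ y, f.eval y = f.eval (x j0) + (y - x j0) * (f /ₘ (X - C (x j0))).eval y := by
      intro y
      have h1 := congrArg (eval y) (modByMonic_add_div f (X - C (x j0)))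
      rw [modByMonic_X_sub_C_eq_C_eval] at h1
      simpa using h1.symm
    have hd : (f /ₘ (X - C (x j0))).natDegree ≤ d := by
      rw [natDegree_divByMonic _ (monic_X_sub_C _), natDegree_X_sub_C]
      omega
    have h1 := ih (f /ₘ (X - C (x j0))) (S.erase j0) hd (by rw [card_erase_of_mem hj0]; omega)
      (fun j hj => by
        obtain ⟨hne, hjS⟩ := mem_erase.mp hj
        have e : (x j - x j0) * (f /ₘ (X - C (x j0))).eval (x j) =
            f.eval (x j) + -f.eval (x j0) := by rw [key (x j)]; ring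
        have e2 := congrArg v e
        rw [map_mul, hx j j0 hne, one_mul] at e2
        rw [e2]
        refine (hv _ _).trans_lt (max_lt (h j hjS) ?_)
        rw [v.map_neg]
        exact h j0 hj0) l
    rw [key (x l)]
    refine (hv _ _).trans_lt (max_lt (h j0 hj0) ?_)
    rw [map_mul]
    by_cases hl : l = j0
    · subst hl
      rw [sub_self, map_zero, zero_mul]
      exact (v.nonneg _).trans_lt h1
    · rwa [hx l j0 hl, one_mul]

theorem gen_auxB {K ι : Type} [Field K] [Fintype ι] [DecidableEq ι] (v : AbsoluteValue K ℝ)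
    (hv : IsNonarchimedean v) (x : ι → K) (hx : ∀ i j, i ≠ j → v (x i - x j) = 1)
    (J : Finset ι) (f : K[X]) (hf : f ≠ 0) :
    ∃ (α : ℝ) (A : Finset ι), (∀ j ∈ J, j ∉ A → v (f.eval (x j)) = α) ∧
      A.card + ∑ i ∈ Jᶜ, rootMultiplicity (x i) f ≤ f.natDegree := by
  classical
  have hinj : Function.Injective x := fun i j hij => by
    by_contra hne
    have := hx i j hne
    rw [hij, sub_self, map_zero] at this
    exact zero_ne_one this
  have hdvd : ∏ i ∈ Jᶜ, (X - C (x i)) ^ rootMultiplicity (x i) f ∣ f :=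
    Finset.prod_dvd_of_coprime
      (fun i _ j _ hij => ((pairwise_coprime_X_sub_C hinj) hij).pow)
      fun i _ => pow_rootMultiplicity_dvd f (x i)
  obtain ⟨f1, hf1⟩ := hdvd
  have hmon : (∏ i ∈ Jᶜ, (X - C (x i)) ^ rootMultiplicity (x i) f).Monic :=
    monic_prod_of_monic _ _ fun i _ => (monic_X_sub_C _).pow _
  have hf10 : f1 ≠ 0 := by
    rintro rfl
    exact hf (by rw [hf1, mul_zero])
  have hdeg : f.natDegree = ∑ i ∈ Jᶜ, rootMultiplicity (x i) f + f1.natDegree := by
    conv_lhs => rw [hf1]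
    rw [hmon.natDegree_mul' hf10,
      natDegree_prod_of_monic _ _ fun i _ => (monic_X_sub_C _).pow _]
    simp only [natDegree_pow, natDegree_X_sub_C, mul_one]
  have hval : ∀ j ∈ J, v (f.eval (x j)) = v (f1.eval (x j)) := fun j hj => by
    conv_lhs => rw [hf1]
    rw [eval_mul, map_mul, eval_prod, map_prod, Finset.prod_eq_one, one_mul]
    intro i hi
    have hne : j ≠ i := fun h => (mem_compl.mp hi) (h ▸ hj)
    rw [eval_pow, map_pow, eval_sub, eval_X, eval_C, hx j i hne, one_pow]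
  rcases J.eq_empty_or_nonempty with rfl | hJ
  · exact ⟨0, ∅, by simp, by rw [hdeg]; simp⟩
  obtain ⟨l, hl, hmax⟩ := J.exists_max_image (fun j => v (f1.eval (x j))) hJ
  refine ⟨v (f1.eval (x l)), J.filter fun j => v (f1.eval (x j)) < v (f1.eval (x l)), ?_, ?_⟩
  · intro j hj hA
    rw [hval j hj]
    exact le_antisymm (hmax j hj) (not_lt.mp fun h => hA (mem_filter.mpr ⟨hj, h⟩))
  · rw [hdeg, add_comm]
    gcongr
    by_contra hlt
    obtain ⟨S, hS, hc⟩ := Finset.exists_subset_card_eq (not_le.mp hlt)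
    exact lt_irrefl _ (gen_auxA v hv x hx _ _ f1 S le_rfl hc
      (fun j hj => (mem_filter.mp (hS hj)).2) l)

theorem gen_of_abv {K ι : Type} [Field K] [Fintype ι] [DecidableEq ι] (v : AbsoluteValue K ℝ)
    (hv : IsNonarchimedean v) (x c : ι → K) (hx : ∀ i j, i ≠ j → v (x i - x j) = 1)
    (hc0 : ∀ i, c i ≠ 0) (hc : Function.Injective fun i => v (c i)) : Gen x c := by
  intro J p q hp hq h
  obtain ⟨α, A, hA, hA'⟩ := gen_auxB v hv x hx J p hp
  obtain ⟨β, B, hB, hB'⟩ := gen_auxB v hv x hx J q hq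
  have h1 : (J \ (A ∪ B)).card ≤ 1 := by
    refine Finset.card_le_one.mpr fun i hi j hj => hc ?_
    have key : ∀ j ∈ J \ (A ∪ B), v (c j) = α / β := fun j hj => by
      obtain ⟨hjJ, hjn⟩ := mem_sdiff.mp hj
      rw [mem_union, not_or] at hjn
      have e := congrArg v (h j hjJ).2
      have hβ : β ≠ 0 := by
        rw [← hB j hjJ hjn.2]
        exact v.ne_zero (h j hjJ).1
      rw [map_mul, hA j hjJ hjn.1, hB j hjJ hjn.2] at e
      rw [← e, mul_div_cancel_right₀ _ hβ]
    exact (key i hi).trans (key j hj).symm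
  have h2 : J.card ≤ (J \ (A ∪ B)).card + (A ∪ B).card := card_le_card_sdiff_add_card
  have h3 := card_union_le A B
  rw [Finset.sum_add_distrib]
  omega

theorem exists_gen (n : ℕ) :
    ∃ x c : Fin n → ℚ, Function.Injective x ∧ (∀ i, c i ≠ 0) ∧ Gen x c := by
  obtain ⟨p, hpn, hp⟩ := Nat.exists_infinite_primes (n + 1)
  have : Fact p.Prime := ⟨hp⟩
  have hp0 : (p : ℚ) ≠ 0 := by exact_mod_cast hp.ne_zero
  have hc0 : ∀ i : Fin n, (p : ℚ) ^ (i : ℕ) ≠ 0 := fun i => pow_ne_zero _ hp0
  refine ⟨fun i => ((i : ℕ) : ℚ), fun i => (p : ℚ) ^ (i : ℕ), fun i j hij => ?_, hc0, ?_⟩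
  · exact Fin.ext (Nat.cast_injective (R := ℚ) hij)
  refine gen_of_abv (Rat.AbsoluteValue.padic p) ?_ _ _ ?_ hc0 ?_
  · intro a b
    simp only [Rat.AbsoluteValue.padic_eq_padicNorm]
    exact_mod_cast padicNorm.nonarchimedean
  · intro i j hij
    rw [Rat.AbsoluteValue.padic_eq_padicNorm]
    have : padicNorm p ((((i : ℕ) : ℤ) - ((j : ℕ) : ℤ) : ℤ) : ℚ) = 1 := by
      rw [padicNorm.int_eq_one_iff]
      intro hd
      have hi := i.2
      have hj := j.2
      have := Int.eq_zero_of_abs_lt_dvd hd (by rw [abs_lt]; constructor <;> omega)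
      exact hij (Fin.ext (by omega))
    push_cast at this
    rw [this, Rat.cast_one]
  · intro i j hij
    simp only [map_pow] at hij
    have h1 : Rat.AbsoluteValue.padic p (p : ℚ) = (p : ℝ)⁻¹ := by
      rw [Rat.AbsoluteValue.padic_eq_padicNorm, padicNorm.padicNorm_p_of_prime]
      simp
    rw [h1] at hij
    have h2 : (1 : ℝ) < p := by exact_mod_cast hp.one_lt
    exact Fin.ext (pow_right_injective₀ (by positivity) (inv_lt_one_of_one_lt₀ h2).ne hij)

end Pool.Agent.Lib.MP_6e81d8_ag.H93
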