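import Mathlib

/-!
General position of points with respect to graphs of rational functions.
-/

set_option autoImplicit false

namespace Pool.Agent.Lib.MP_6e81d8_ag.H93

open Polynomial Finset

/-- The graph of `p / q` passes through at most as many points `(x j, c j)` as parameters allow. -/
def Gen {K ι : Type} [Field K] [Fintype ι] [DecidableEq ι] (x c : ι → K) : Prop :=
  ∀ (J : Finset ι) (p q : K[X]), p ≠ 0 → q ≠ 0 →
    (∀ j ∈ J, q.eval (x j) ≠ 0 ∧ c j * q.eval (x j) = p.eval (x j)) →
    J.card + ∑ i ∈ Jᶜ, (rootMultiplicity (x i) p + rootMultiplicity (x i) q) ≤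
      p.natDegree + q.natDegree + 1

end Pool.Agent.Lib.MP_6e81d8_ag.H93
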