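import Pool.Agent.Lib.MP_6e81d8_ag.H93.Gauss
import Pool.Agent.Lib.MP_6e81d8_ag.H93.GenDef

/-!
The leaf inequality: forms on a ruled surface with real weights at marked fibres.
-/

set_option autoImplicit false

namespace Pool.Agent.Lib.MP_6e81d8_ag.H93

open Polynomial Finset

/-- An additive ultrametric weight on nonzero elements gives a nonarchimedean absolute value. -/
theorem leaf_exists_abv {R : Type} [CommRing R] [IsDomain R] (w : R → ℝ)
    (hmul : ∀ f g, f ≠ 0 → g ≠ 0 → w (f * g) = w f + w g)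
    (hadd : ∀ f g, f ≠ 0 → g ≠ 0 → f + g ≠ 0 → w (f + g) ≤ max (w f) (w g)) :
    ∃ v : AbsoluteValue R ℝ, IsNonarchimedean v ∧ ∀ f, f ≠ 0 → v f = Real.exp (w f) := by
  classical
  have hnn : ∀ f : R, 0 ≤ (if f = 0 then (0 : ℝ) else Real.exp (w f)) := by
    intro f
    split_ifs
    · exact le_rfl
    · exact (Real.exp_pos _).le
  have hna : ∀ f g : R, (if f + g = 0 then (0 : ℝ) else Real.exp (w (f + g))) ≤
      max (if f = 0 then (0 : ℝ) else Real.exp (w f))
        (if g = 0 then (0 : ℝ) else Real.exp (w g)) := by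
    intro f g
    by_cases hf : f = 0
    · subst hf
      rw [zero_add]
      exact le_max_right _ _
    by_cases hg : g = 0
    · subst hg
      rw [add_zero]
      exact le_max_left _ _
    by_cases hfg : f + g = 0
    · rw [if_pos hfg]
      exact le_trans (hnn f) (le_max_left _ _)
    rw [if_neg hf, if_neg hg, if_neg hfg]
    rcases le_max_iff.mp (hadd f g hf hg hfg) with h | h
    · exact le_trans (Real.exp_le_exp.mpr h) (le_max_left _ _)
    · exact le_trans (Real.exp_le_exp.mpr h) (le_max_right _ _)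
  refine ⟨{ toFun := fun f => if f = 0 then 0 else Real.exp (w f)
            map_mul' := ?_
            nonneg' := hnn
            eq_zero' := ?_
            add_le' := ?_ }, hna, ?_⟩
  · intro f g
    by_cases hf : f = 0
    · simp [hf]
    by_cases hg : g = 0
    · simp [hg]
    rw [if_neg hf, if_neg hg, if_neg (mul_ne_zero hf hg), hmul f g hf hg, Real.exp_add]
  · intro f
    by_cases hf : f = 0
    · simp [hf]
    · simp [hf]
  · intro f g
    exact le_trans (hna f g) (max_le_add_of_nonneg (hnn f) (hnn g))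
  · intro f hf
    exact if_neg hf

theorem leaf_exists_deg (K : Type) [Field K] :
    ∃ v : AbsoluteValue K[X] ℝ, IsNonarchimedean v ∧
      ∀ f, f ≠ 0 → v f = Real.exp (f.natDegree : ℝ) := by
  refine leaf_exists_abv (fun f : K[X] => (f.natDegree : ℝ)) ?_ ?_
  · intro f g hf hg
    simp only [natDegree_mul hf hg, Nat.cast_add]
  · intro f g _ _ _
    exact_mod_cast natDegree_add_le f g

theorem leaf_exists_ord {K : Type} [Field K] (a : K) :
    ∃ v : AbsoluteValue K[X] ℝ, IsNonarchimedean v ∧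
      ∀ f, f ≠ 0 → v f = Real.exp (-(rootMultiplicity a f : ℝ)) := by
  refine leaf_exists_abv (fun f : K[X] => -(rootMultiplicity a f : ℝ)) ?_ ?_
  · intro f g hf hg
    simp only [rootMultiplicity_mul (mul_ne_zero hf hg), Nat.cast_add]
    ring
  · intro f g _ _ hfg
    have h := rootMultiplicity_add a hfg
    rcases min_le_iff.mp h with h | h
    · exact le_max_of_le_left (neg_le_neg (by exact_mod_cast h))
    · exact le_max_of_le_right (neg_le_neg (by exact_mod_cast h))

/-- The product formula, as an inequality. -/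
theorem leaf_sum_ord_le {K ι : Type} [Field K] [Fintype ι] (x : ι → K)
    (hx : Function.Injective x) (g : K[X]) (hg : g ≠ 0) :
    ∑ i, (rootMultiplicity (x i) g : ℝ) ≤ g.natDegree := by
  have hdvd : ∏ i, (X - C (x i)) ^ (rootMultiplicity (x i) g) ∣ g := by
    apply Finset.prod_dvd_of_coprime
    · intro i _ j _ hij
      exact IsCoprime.pow (pairwise_coprime_X_sub_C hx hij)
    · intro i _
      exact pow_rootMultiplicity_dvd g (x i)
  have hle := natDegree_le_of_dvd hdvd hg
  rw [natDegree_prod_of_monic _ _ (fun i _ => (monic_X_sub_C _).pow _)] at hle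
  simp only [natDegree_pow, natDegree_X_sub_C, mul_one] at hle
  exact_mod_cast hle

theorem leaf_top {K ι : Type} [Field K] [Fintype ι] (x e : ι → K) (hx : Function.Injective x)
    (σ φ : ι → ℝ) (S A : ℝ) (G : K[X][X]) (hG : G ≠ 0)
    (hdeg : ∀ t, G.coeff t ≠ 0 → ((G.coeff t).natDegree : ℝ) + S * t ≤ A)
    (hval : ∀ i t, (taylor (C (e i)) G).coeff t ≠ 0 →
      φ i ≤ (rootMultiplicity (x i) ((taylor (C (e i)) G).coeff t) : ℝ) + σ i * t) :
    ∑ i, φ i - A ≤ G.natDegree * (∑ i, σ i - S) := by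
  have hg : G.leadingCoeff ≠ 0 := leadingCoeff_ne_zero.mpr hG
  have htop : ∀ i, (taylor (C (e i)) G).coeff G.natDegree = G.leadingCoeff := by
    intro i
    rw [← leadingCoeff_taylor (C (e i)) G, leadingCoeff, natDegree_taylor]
  have h1 : ∀ i, φ i ≤ (rootMultiplicity (x i) G.leadingCoeff : ℝ) + σ i * G.natDegree := by
    intro i
    have := hval i G.natDegree (by rw [htop]; exact hg)
    rwa [htop] at this
  have h2 : (G.leadingCoeff.natDegree : ℝ) + S * G.natDegree ≤ A := hdeg G.natDegree hg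
  have h3 := leaf_sum_ord_le x hx _ hg
  have h4 : ∑ i, φ i ≤ ∑ i, ((rootMultiplicity (x i) G.leadingCoeff : ℝ) + σ i * G.natDegree) :=
    Finset.sum_le_sum fun i _ => h1 i
  rw [Finset.sum_add_distrib, ← Finset.sum_mul] at h4
  nlinarith

theorem leaf_gauss_ge {R : Type} [CommRing R] (v : AbsoluteValue R ℝ) (w : R → ℝ)
    (hw : ∀ f, f ≠ 0 → v f = Real.exp (w f)) (s : ℝ) (P : R[X]) (t : ℕ) (ht : P.coeff t ≠ 0) :
    Real.exp (w (P.coeff t) + s * t) ≤ gaussNorm v (Real.exp s) P := by
  have := le_gaussNorm v P (Real.exp_pos s).le t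
  rwa [hw _ ht, ← Real.exp_nat_mul, ← Real.exp_add, mul_comm (t : ℝ) s] at this

theorem leaf_gauss_le {R : Type} [CommRing R] (v : AbsoluteValue R ℝ) (w : R → ℝ)
    (hw : ∀ f, f ≠ 0 → v f = Real.exp (w f)) (s B : ℝ) (P : R[X])
    (h : ∀ t, P.coeff t ≠ 0 → w (P.coeff t) + s * t ≤ B) :
    gaussNorm v (Real.exp s) P ≤ Real.exp B := by
  obtain ⟨t, ht⟩ := exists_eq_gaussNorm v (Real.exp s) P
  rw [ht]
  by_cases h0 : P.coeff t = 0
  · rw [h0, map_zero, zero_mul]
    exact (Real.exp_pos _).le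
  · rw [hw _ h0, ← Real.exp_nat_mul, ← Real.exp_add, mul_comm (t : ℝ) s]
    exact Real.exp_le_exp.mpr (h t h0)

/-- The numerical heart of the degree one case: lower bounds `l` for the logarithms. -/
theorem leaf_one {K ι : Type} [Field K] [Fintype ι] [DecidableEq ι] (x c e : ι → K)
    (hc : ∀ i, c i ≠ 0) (hgen : Gen x c) (J : Finset ι)
    (he1 : ∀ i ∈ J, e i = c i) (he0 : ∀ i ∉ J, e i = 0)
    (σ : ι → ℝ) (hσ : ∀ j ∈ J, σ j = 1) (S : ℝ)
    (hβ : ∑ i ∈ Jᶜ, σ i - S ≤ J.card)
    (hfr : ∀ z : ι → ℤ, 1 ≤ ∑ i ∈ Jᶜ, |(z i : ℝ) - σ i|)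
    (P : K[X][X]) (hP : Irreducible P) (hd : P.natDegree = 1) (L : ℝ) (l : ι → ℝ)
    (hL : ∀ t, P.coeff t ≠ 0 → ((P.coeff t).natDegree : ℝ) + S * t ≤ L)
    (hl : ∀ i t, (taylor (C (e i)) P).coeff t ≠ 0 →
      -(rootMultiplicity (x i) ((taylor (C (e i)) P).coeff t) : ℝ) + -σ i * t ≤ l i) :
    S - ∑ i, σ i ≤ 2 * (L + ∑ i, l i) := by
  classical
  obtain ⟨q, hq⟩ : ∃ q, q = P.coeff 1 := ⟨_, rfl⟩
  obtain ⟨p, hp⟩ : ∃ p, p = P.coeff 0 := ⟨_, rfl⟩
  have hPe : P = C q * X + C p := by
    rw [hq, hp]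
    exact eq_X_add_C_of_natDegree_le_one hd.le
  have hq0 : q ≠ 0 := by
    rw [hq, ← hd]
    exact leadingCoeff_ne_zero.mpr hP.ne_zero
  have hc0 : ∀ i, (taylor (C (e i)) P).coeff 0 = q * C (e i) + p := by
    intro i
    rw [taylor_coeff_zero, hPe]
    simp
  have hc1 : ∀ i, (taylor (C (e i)) P).coeff 1 = q := by
    intro i
    rw [taylor_coeff_one, hPe]
    simp
  have hl1 : ∀ i, -(rootMultiplicity (x i) q : ℝ) - σ i ≤ l i := by
    intro i
    have := hl i 1 (by rw [hc1]; exact hq0)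
    rw [hc1] at this
    push_cast at this
    linarith
  have hl0 : ∀ i, (q * C (e i) + p).eval (x i) ≠ 0 → 0 ≤ l i := by
    intro i hi
    have hne : q * C (e i) + p ≠ 0 := by
      intro h
      rw [h] at hi
      exact hi eval_zero
    have := hl i 0 (by rw [hc0]; exact hne)
    rw [hc0, rootMultiplicity_eq_zero hi] at this
    simpa using this
  have hL1 : (q.natDegree : ℝ) + S ≤ L := by
    have := hL 1 (by rw [← hq]; exact hq0)
    rw [← hq] at this
    simpa using this
  have hsσ : ∑ i, σ i = J.card + ∑ i ∈ Jᶜ, σ i := by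
    rw [← Finset.sum_add_sum_compl J σ, Finset.sum_congr rfl hσ]
    simp
  have hsl : ∑ i, l i = ∑ i ∈ J, l i + ∑ i ∈ Jᶜ, l i := (Finset.sum_add_sum_compl J l).symm
  have hcop : ∀ a : K, q.eval a = 0 → p.eval a ≠ 0 := by
    intro a ha hb
    have h1 : C (X - C a) ∣ P := by
      rw [hPe]
      exact dvd_add (dvd_mul_of_dvd_left (_root_.map_dvd C (dvd_iff_isRoot.mpr ha)) _)
        (_root_.map_dvd C (dvd_iff_isRoot.mpr hb))
    obtain ⟨Q, hQ⟩ := h1
    rcases hP.isUnit_or_isUnit hQ with h | h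
    · exact not_isUnit_X_sub_C a (isUnit_C.mp h)
    · have h2 := congrArg natDegree hQ
      rw [natDegree_C_mul (X_sub_C_ne_zero a), natDegree_eq_zero_of_isUnit h, hd] at h2
      exact one_ne_zero h2
  by_cases hp0 : p = 0
  · have hqa : ∀ a : K, q.eval a ≠ 0 := by
      intro a ha
      exact hcop a ha (by rw [hp0, eval_zero])
    have h1 : 0 ≤ ∑ i ∈ J, l i := by
      refine Finset.sum_nonneg fun i hi => hl0 i ?_
      rw [hp0, he1 i hi]
      simp [hqa, hc]
    have h2 : ∑ i ∈ Jᶜ, -σ i ≤ ∑ i ∈ Jᶜ, l i := by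
      refine Finset.sum_le_sum fun i _ => ?_
      have := hl1 i
      rw [rootMultiplicity_eq_zero (hqa (x i))] at this
      simpa using this
    rw [Finset.sum_neg_distrib] at h2
    have h3 : (0 : ℝ) ≤ q.natDegree := Nat.cast_nonneg _
    linarith
  · have hL0 : (p.natDegree : ℝ) ≤ L := by
      have := hL 0 (by rw [← hp]; exact hp0)
      rw [← hp] at this
      simpa using this
    set J' := J.filter fun j => q.eval (x j) ≠ 0 ∧ c j * q.eval (x j) = (-p).eval (x j) with hJ'
    have hg := hgen J' (-p) q (neg_ne_zero.mpr hp0) hq0 (fun j hj => (Finset.mem_filter.mp hj).2)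
    have hneg : ∀ a : K, rootMultiplicity a (-p) = rootMultiplicity a p := by
      intro a
      have : -p = C (-1) * p := by simp
      rw [this, rootMultiplicity_mul (by rw [← this]; exact neg_ne_zero.mpr hp0),
        rootMultiplicity_C, zero_add]
    simp only [hneg, natDegree_neg] at hg
    have hsub : Jᶜ ⊆ J'ᶜ := Finset.compl_subset_compl.mpr (Finset.filter_subset _ _)
    have hg1 : J'.card + ∑ i ∈ Jᶜ, (rootMultiplicity (x i) p + rootMultiplicity (x i) q) ≤
        p.natDegree + q.natDegree + 1 :=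
      le_trans (Nat.add_le_add_left (Finset.sum_le_sum_of_subset hsub) _) hg
    have hg2 : (J'.card : ℝ) +
        ∑ i ∈ Jᶜ, ((rootMultiplicity (x i) p : ℝ) + rootMultiplicity (x i) q) ≤
        p.natDegree + q.natDegree + 1 := by
      exact_mod_cast hg1
    have hcard : (J'.card : ℝ) ≤ J.card := by
      exact_mod_cast Finset.card_le_card (Finset.filter_subset _ _)
    have h1 : -(J'.card : ℝ) ≤ ∑ i ∈ J, l i := by
      have : ∑ i ∈ J, (if q.eval (x i) ≠ 0 ∧ c i * q.eval (x i) = (-p).eval (x i) then (-1 : ℝ)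
          else 0) = -(J'.card : ℝ) := by
        rw [← Finset.sum_filter, Finset.sum_const]
        simp [hJ']
      rw [← this]
      refine Finset.sum_le_sum fun i hi => ?_
      split_ifs with h
      · have := hl1 i
        rw [rootMultiplicity_eq_zero h.1, hσ i hi] at this
        simpa using this
      · apply hl0 i
        rw [he1 i hi]
        simp only [eval_add, eval_mul, eval_C]
        intro h0
        by_cases hqi : q.eval (x i) = 0
        · rw [hqi, zero_mul, zero_add] at h0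
          exact hcop _ hqi h0
        · apply h
          refine ⟨hqi, ?_⟩
          rw [eval_neg]
          linear_combination h0
    have h2 : ∑ i ∈ Jᶜ, (|(((rootMultiplicity (x i) p : ℤ) - (rootMultiplicity (x i) q : ℤ) : ℤ)
        : ℝ) - σ i| - ((rootMultiplicity (x i) p : ℝ) + rootMultiplicity (x i) q) - σ i) ≤
        ∑ i ∈ Jᶜ, 2 * l i := by
      refine Finset.sum_le_sum fun i hi => ?_
      have hi' : e i = 0 := he0 i (Finset.mem_compl.mp hi)
      have ha := hl1 i
      have hpe : q * C (e i) + p = p := by rw [hi']; simp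
      have hb := hl i 0 (by rw [hc0, hpe]; exact hp0)
      rw [hc0, hpe] at hb
      push_cast at hb ⊢
      rcases abs_cases ((rootMultiplicity (x i) p : ℝ) - rootMultiplicity (x i) q - σ i) with
        h | h <;> linarith [h.1]
    rw [Finset.sum_sub_distrib, Finset.sum_sub_distrib, ← Finset.mul_sum] at h2
    have h3 := hfr fun i => (rootMultiplicity (x i) p : ℤ) - (rootMultiplicity (x i) q : ℤ)
    linarith

theorem leaf {K ι : Type} [Field K] [CharZero K] [Fintype ι] [DecidableEq ι] (x c e : ι → K)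
    (hx : Function.Injective x) (hc : ∀ i, c i ≠ 0) (hgen : Gen x c) (J : Finset ι)
    (he1 : ∀ i ∈ J, e i = c i) (he0 : ∀ i ∉ J, e i = 0)
    (σ φ : ι → ℝ) (hσ : ∀ j ∈ J, σ j = 1) (S A : ℝ)
    (hβ : ∑ i ∈ Jᶜ, σ i - S ≤ J.card)
    (hfr : ∀ z : ι → ℤ, 1 ≤ ∑ i ∈ Jᶜ, |(z i : ℝ) - σ i|)
    (G : K[X][X]) (hG : G ≠ 0)
    (hdeg : ∀ t, G.coeff t ≠ 0 → ((G.coeff t).natDegree : ℝ) + S * t ≤ A)
    (hval : ∀ i t, (taylor (C (e i)) G).coeff t ≠ 0 →
      φ i ≤ (rootMultiplicity (x i) ((taylor (C (e i)) G).coeff t) : ℝ) + σ i * t) :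
    2 * (∑ i, φ i - A) ≤ G.natDegree * (∑ i, σ i - S) := by
  obtain ⟨v0, hv0, hw0⟩ := leaf_exists_deg K
  choose v hv hw using fun i => leaf_exists_ord (x i)
  have hρ : ∏ p : Option ι, (p.elim (Real.exp S) fun i => Real.exp (-σ i)) =
      Real.exp (S - ∑ i, σ i) := by
    rw [Fintype.prod_option]
    simp only [Option.elim_none, Option.elim_some]
    rw [← Real.exp_sum, ← Real.exp_add, Finset.sum_neg_distrib, sub_eq_add_neg]
  have hN : ∀ P : K[X][X], ∏ p : Option ι, gaussNorm (p.elim v0 v)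
      (p.elim (Real.exp S) fun i => Real.exp (-σ i)) (taylor (p.elim 0 fun i => C (e i)) P) =
      gaussNorm v0 (Real.exp S) P *
        ∏ i, gaussNorm (v i) (Real.exp (-σ i)) (taylor (C (e i)) P) := by
    intro P
    rw [Fintype.prod_option]
    simp only [Option.elim_none, Option.elim_some, taylor_zero]
  have key := semistable (π := Option ι) (fun p => p.elim v0 v)
    (fun p => by cases p; exacts [hv0, hv _])
    (fun f hf => by
      rw [Fintype.prod_option]
      simp only [Option.elim_none, Option.elim_some, hw0 f hf, fun i => hw i f hf]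
      rw [← Real.exp_sum, ← Real.exp_add, Finset.sum_neg_distrib]
      exact Real.one_le_exp (by linarith [leaf_sum_ord_le x hx f hf]))
    (fun p => p.elim (Real.exp S) fun i => Real.exp (-σ i))
    (fun p => by cases p <;> exact Real.exp_pos _)
    (fun p => p.elim 0 fun i => C (e i))
    (fun P hP hd => by
      rw [hρ, hN]
      have htop : ∀ r : K[X], (taylor r P).coeff P.natDegree ≠ 0 := by
        intro r
        rw [← natDegree_taylor P r, coeff_natDegree, leadingCoeff_taylor]
        exact leadingCoeff_ne_zero.mpr hP.ne_zero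
      have hpos0 : 0 < gaussNorm v0 (Real.exp S) P :=
        lt_of_lt_of_le (Real.exp_pos _) (leaf_gauss_ge v0 _ hw0 S P P.natDegree
          (leadingCoeff_ne_zero.mpr hP.ne_zero))
      have hpos : ∀ i, 0 < gaussNorm (v i) (Real.exp (-σ i)) (taylor (C (e i)) P) := fun i =>
        lt_of_lt_of_le (Real.exp_pos _) (leaf_gauss_ge (v i) _ (hw i) (-σ i) _ P.natDegree (htop _))
      have h := leaf_one x c e hc hgen J he1 he0 σ hσ S hβ hfr P hP hd
        (Real.log (gaussNorm v0 (Real.exp S) P))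
        (fun i => Real.log (gaussNorm (v i) (Real.exp (-σ i)) (taylor (C (e i)) P)))
        (fun t ht => (Real.le_log_iff_exp_le hpos0).mpr (leaf_gauss_ge v0 _ hw0 S P t ht))
        (fun i t ht => (Real.le_log_iff_exp_le (hpos i)).mpr
          (leaf_gauss_ge (v i) _ (hw i) (-σ i) _ t ht))
      refine le_trans (Real.exp_le_exp.mpr h) (le_of_eq ?_)
      rw [two_mul, Real.exp_add, sq, Real.exp_add, Real.exp_sum, Real.exp_log hpos0]
      simp only [fun i => Real.exp_log (hpos i)])
    G hG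
  rw [hρ, hN] at key
  have hup0 : gaussNorm v0 (Real.exp S) G ≤ Real.exp A := leaf_gauss_le v0 _ hw0 S A G hdeg
  have hup : ∀ i, gaussNorm (v i) (Real.exp (-σ i)) (taylor (C (e i)) G) ≤ Real.exp (-φ i) :=
    fun i => leaf_gauss_le (v i) _ (hw i) (-σ i) (-φ i) _ fun t ht => by linarith [hval i t ht]
  have hnn : ∀ i, 0 ≤ gaussNorm (v i) (Real.exp (-σ i)) (taylor (C (e i)) G) :=
    fun i => gaussNorm_nonneg _ _ (Real.exp_pos _).le
  have hall : gaussNorm v0 (Real.exp S) G *
      ∏ i, gaussNorm (v i) (Real.exp (-σ i)) (taylor (C (e i)) G) ≤ Real.exp (A - ∑ i, φ i) := by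
    rw [sub_eq_add_neg, Real.exp_add, ← Finset.sum_neg_distrib, Real.exp_sum]
    exact mul_le_mul hup0 (Finset.prod_le_prod (fun i _ => hnn i) fun i _ => hup i)
      (Finset.prod_nonneg fun i _ => hnn i) (Real.exp_pos _).le
  have h2 := le_trans key (pow_le_pow_left₀ (mul_nonneg (gaussNorm_nonneg _ _ (Real.exp_pos _).le)
    (Finset.prod_nonneg fun i _ => hnn i)) hall 2)
  rw [← Real.exp_nat_mul, ← Real.exp_nat_mul, Real.exp_le_exp] at h2
  push_cast at h2
  linarith

end Pool.Agent.Lib.MP_6e81d8_ag.H93
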