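import Pool.Agent.Lib.MP_6e81d8_ag.H93.Design

/-!
The combinatorial type of the design: six atoms and twelve types of points.
-/

set_option autoImplicit false

namespace Pool.Agent.Lib.MP_6e81d8_ag.H93

open Polynomial Finset H16

section entries

variable {N : ℕ} {b : Fin N → ℝ} {lv : Fin N → ℕ} {g I k₀ : Fin N} {θ r : ℝ}

theorem eZ : Entry b lv g θ I 0 0 := Or.inl ⟨rfl, rfl⟩

theorem eR0 (h1 : g < I) (h2 : ∀ k, g < k → k ≤ I → lv k < lv g) :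
    Entry b lv g 1 I 1 (1 + 1 * b g) :=
  Or.inr (Or.inl ⟨g, le_rfl, h1.le, Or.inl h1, h2, Or.inl rfl, by simp [th], rfl⟩)

theorem eR1 (h0 : k₀ < g) (h1 : g < I) (h2 : ∀ k, g ≤ k → k ≤ I → lv k < lv k₀) :
    Entry b lv g θ I 1 (1 + 1 * b k₀) :=
  Or.inr (Or.inl ⟨k₀, h0.le, h1.le, Or.inl h1, fun k hk => h2 k hk.le,
    Or.inr (Or.inr (h2 g le_rfl h1.le)), by simp [th, h0], rfl⟩)

theorem eRg (h0 : θ < 1) (hr : r * θ = 1) (h1 : g ≤ I) (h2 : ∀ k, g < k → k ≤ I → lv k < lv g) :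
    Entry b lv g θ I r (1 + r * b g) :=
  Or.inr (Or.inl ⟨g, le_rfl, h1, Or.inr h0, h2, Or.inl rfl, by simpa [th] using hr, rfl⟩)

theorem eL1 (h0 : g < k₀) (h1 : I < g) (h2 : ∀ k, I < k → k ≤ g → lv k < lv k₀) :
    Entry b lv g θ I (-1) (1 + (-1) * b k₀) :=
  Or.inr (Or.inr ⟨k₀, h1, h0.le, fun k hk hk' => Or.inr (h2 k hk hk'),
    by simp [th, h0.ne', h0.not_gt], rfl⟩)

theorem eLg (hr : r * (θ - 1) = 1) (h1 : I < g)
    (h2 : ∀ k, I < k → k ≤ g → k = g ∨ lv k < lv g) : Entry b lv g θ I r (1 + r * b g) :=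
  Or.inr (Or.inr ⟨g, h1, le_rfl, h2, by simpa [th] using hr, rfl⟩)

end entries

theorem sum12 {M : Type} [AddCommMonoid M] (f : Fin 12 → M) : ∑ τ, f τ =
    f 0 + f 1 + f 2 + f 3 + f 4 + f 5 + f 6 + f 7 + f 8 + f 9 + f 10 + f 11 := by
  simp only [Fin.sum_univ_succ, Fin.sum_univ_zero, add_zero, ← add_assoc]
  rfl

/-- A point with two fronts: `p`, `q` are the slopes of its rank on the left and on the right. -/
def Two (θ p q : ℝ) : Prop := 0 < θ ∧ θ < 1 ∧ p * (θ - 1) = 1 ∧ q * θ = 1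

theorem core {n : ℕ} (n0 n1 n2 n3 n4 n5 n6 n7 n8 n9 n10 n11 : ℕ)
    (hn : n0 + n1 + n2 + n3 + n4 + n5 + n6 + n7 + n8 + n9 + n10 + n11 = n)
    (S H x y : ℝ) (o1 : 0 ≤ H - 2) (o2 : H - 2 ≤ x) (o3 : x ≤ 1) (o4 : 1 ≤ y) (o5 : y ≤ H - 1)
    (θ1 θ2 θ3 θ4 θ5 θ6 p1 p2 p3 p4 p5 p6 q1 q2 q3 q4 q5 q6 : ℝ)
    (t1 : Two θ1 p1 q1) (t2 : Two θ2 p2 q2) (t3 : Two θ3 p3 q3) (t4 : Two θ4 p4 q4)
    (t5 : Two θ5 p5 q5) (t6 : Two θ6 p6 q6) (hS : (n5 : ℝ) = S) (β0 β1 β2 β3 β4 δ : ℝ)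
    (b0 : β0 = n6 * p1 - S)
    (b1 : β1 = n0 * 1 + n2 * (-1) + n3 * (-1) + n4 * (-1) + n6 * q1 + n7 * p2 + n8 * p3 + n9 * (-1) + n10 * (-1) + n11 * (-1) - S)
    (b2 : β2 = n0 * 1 + n1 * 1 + n3 * (-1) + n4 * (-1) + n6 * 1 + n7 * q2 + n8 * q3 + n9 * p4 + n10 * (-1) + n11 * p6 - S)
    (b3 : β3 = n1 * 1 + n2 * 1 + n4 * (-1) + n7 * 1 + n8 * q3 + n9 * p4 + n10 * p5 + n11 * q6 - S)
    (b4 : β4 = n1 * 1 + n2 * 1 + n3 * 1 + n7 * 1 + n8 * 1 + n9 * q4 + n10 * q5 + n11 * 1 - S)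
    (l0 : -(n0 : ℝ) ≤ β0) (u0 : β0 ≤ n0)
    (l1 : -(n1 : ℝ) ≤ β1) (u1 : β1 ≤ n1)
    (l2 : -(n2 : ℝ) ≤ β2) (u2 : β2 ≤ n2)
    (l3 : -(n3 : ℝ) ≤ β3) (u3 : β3 ≤ n3)
    (l4 : -(n4 : ℝ) ≤ β4) (u4 : β4 ≤ n4)
    (a0 : β0 * 0 + (β0 + n0) * ((H - 2) - 0) / 2 ≤
      n6 * (1 + p1 * (H - 2)) + n0 - S * H)
    (a1 : β1 * (H - 2) + (β1 + n1) * (x - (H - 2)) / 2 ≤
      n0 * (1 + 1 * 0) + n2 * (1 + (-1) * (H - 1)) + n3 * (1 + (-1) * (H - 1)) + n4 * (1 + (-1) * (H - 1)) + n6 * (1 + q1 * (H - 2)) + n7 * (1 + p2 * x) + n8 * (1 + p3 * x) + n9 * (1 + (-1) * (H - 1)) + n10 * (1 + (-1) * (H - 1)) + n11 * (1 + (-1) * (H - 1)) + n1 - S * H)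
    (a2 : β2 * x + (β2 + n2) * (1 - x) / 2 ≤
      n0 * (1 + 1 * 0) + n1 * (1 + 1 * (H - 2)) + n3 * (1 + (-1) * y) + n4 * (1 + (-1) * (H - 1)) + n6 * (1 + 1 * 0) + n7 * (1 + q2 * x) + n8 * (1 + q3 * x) + n9 * (1 + p4 * y) + n10 * (1 + (-1) * (H - 1)) + n11 * (1 + p6 * 1) + n2 - S * H)
    (a3 : β3 * 1 + (β3 + n3) * (y - 1) / 2 ≤
      n1 * (1 + 1 * (H - 2)) + n2 * (1 + 1 * x) + n4 * (1 + (-1) * (H - 1)) + n7 * (1 + 1 * (H - 2)) + n8 * (1 + q3 * x) + n9 * (1 + p4 * y) + n10 * (1 + p5 * y) + n11 * (1 + q6 * 1) + n3 - S * H)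
    (a4 : β4 * y + (β4 + n4) * ((H - 1) - y) / 2 ≤
      n1 * (1 + 1 * (H - 2)) + n2 * (1 + 1 * x) + n3 * (1 + 1 * x) + n7 * (1 + 1 * (H - 2)) + n8 * (1 + 1 * (H - 2)) + n9 * (1 + q4 * y) + n10 * (1 + q5 * y) + n11 * (1 + 1 * x) + n4 - S * H)
    (hδ : 0 < δ)
    (f0 : -2 + δ ≤ p1 ∧ p1 + δ ≤ -2 + 1 ∧ 1 ≤ n6 * δ)
    (f1 : -2 + δ ≤ p3 ∧ p3 + δ ≤ -2 + 1 ∧ 1 ≤ n8 * δ)
    (f2 : 2 + δ ≤ q3 ∧ q3 + δ ≤ 2 + 1 ∧ 1 ≤ n8 * δ)
    (f3 : 2 + δ ≤ q3 ∧ q3 + δ ≤ 2 + 1 ∧ 1 ≤ n8 * δ)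
    (f4 : 2 + δ ≤ q5 ∧ q5 + δ ≤ 2 + 1 ∧ 1 ≤ n10 * δ)
    (m D : ℕ) (a : ℕ → ℕ) (ha : ∀ t < D, 0 < a t → (a t : ℝ) ≤ S * (H * m - t)) :
    Good (fun _ : Fin n => m) (tr D a) univ 0 := by
  refine designT (T := Fin 12) (N := 6) ![n0, n1, n2, n3, n4, n5, n6, n7, n8, n9, n10, n11]
    (by rw [sum12]; exact hn) ![0, H - 2, x, 1, y, H - 1] ?_ 0 le_rfl ![6, 4, 3, 1, 2, 5]
    ![0, 1, 2, 3, 4, 5, 1, 2, 2, 4, 4, 3] ![1, 1, 1, 1, 1, 1, θ1, θ2, θ3, θ4, θ5, θ6] ?_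
    ![![0, 0, 0, 0, 0, 0, p1, 0, 0, 0, 0, 0],
      ![1, 0, -1, -1, -1, 0, q1, p2, p3, -1, -1, -1],
      ![1, 1, 0, -1, -1, 0, 1, q2, q3, p4, -1, p6],
      ![0, 1, 1, 0, -1, 0, 0, 1, q3, p4, p5, q6],
      ![0, 1, 1, 1, 0, 0, 0, 1, 1, q4, q5, 1],
      ![0, 0, 0, 0, 0, 0, 0, 0, 0, 0, 0, 0]]
    ![![0, 0, 0, 0, 0, 0, 1 + p1 * (H - 2), 0, 0, 0, 0, 0],
      ![1 + 1 * 0, 0, 1 + (-1) * (H - 1), 1 + (-1) * (H - 1), 1 + (-1) * (H - 1), 0, 1 + q1 * (H - 2), 1 + p2 * x, 1 + p3 * x, 1 + (-1) * (H - 1), 1 + (-1) * (H - 1), 1 + (-1) * (H - 1)],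
      ![1 + 1 * 0, 1 + 1 * (H - 2), 0, 1 + (-1) * y, 1 + (-1) * (H - 1), 0, 1 + 1 * 0, 1 + q2 * x, 1 + q3 * x, 1 + p4 * y, 1 + (-1) * (H - 1), 1 + p6 * 1],
      ![0, 1 + 1 * (H - 2), 1 + 1 * x, 0, 1 + (-1) * (H - 1), 0, 0, 1 + 1 * (H - 2), 1 + q3 * x, 1 + p4 * y, 1 + p5 * y, 1 + q6 * 1],
      ![0, 1 + 1 * (H - 2), 1 + 1 * x, 1 + 1 * x, 0, 0, 0, 1 + 1 * (H - 2), 1 + 1 * (H - 2), 1 + q4 * y, 1 + q5 * y, 1 + 1 * x],
      ![0, 0, 0, 0, 0, 0, 0, 0, 0, 0, 0, 0]]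
    ![0, 1, 2, 3, 4, 5] ?_ ?_ ?_ S H ?_ m D a ha
  · refine Fin.monotone_iff_le_succ.mpr fun i => ?_
    fin_cases i
    exacts [o1, o2, o3, o4, o5]
  · intro τ
    fin_cases τ
    exacts [⟨one_pos, le_rfl⟩, ⟨one_pos, le_rfl⟩, ⟨one_pos, le_rfl⟩, ⟨one_pos, le_rfl⟩,
      ⟨one_pos, le_rfl⟩, ⟨one_pos, le_rfl⟩, ⟨t1.1, t1.2.1.le⟩, ⟨t2.1, t2.2.1.le⟩,
      ⟨t3.1, t3.2.1.le⟩, ⟨t4.1, t4.2.1.le⟩, ⟨t5.1, t5.2.1.le⟩, ⟨t6.1, t6.2.1.le⟩]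
  · intro I
    fin_cases I <;> exact ⟨rfl, rfl⟩
  · intro I
    fin_cases I <;> exact ⟨rfl, rfl⟩
  · intro I τ
    fin_cases I <;> fin_cases τ
    · exact eZ
    · exact eZ
    · exact eZ
    · exact eZ
    · exact eZ
    · exact eZ
    · exact eLg (g := 1) (I := 0) t1.2.2.1 (by decide) (by decide)
    · exact eZ
    · exact eZ
    · exact eZ
    · exact eZ
    · exact eZ
    · exact eR0 (g := 0) (I := 1) (by decide) (by decide)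
    · exact eZ
    · exact eL1 (k₀ := 5) (g := 2) (I := 1) (by decide) (by decide) (by decide)
    · exact eL1 (k₀ := 5) (g := 3) (I := 1) (by decide) (by decide) (by decide)
    · exact eL1 (k₀ := 5) (g := 4) (I := 1) (by decide) (by decide) (by decide)
    · exact eZ
    · exact eRg (g := 1) (I := 1) t1.2.1 t1.2.2.2 (by decide) (by decide)
    · exact eLg (g := 2) (I := 1) t2.2.2.1 (by decide) (by decide)
    · exact eLg (g := 2) (I := 1) t3.2.2.1 (by decide) (by decide)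
    · exact eL1 (k₀ := 5) (g := 4) (I := 1) (by decide) (by decide) (by decide)
    · exact eL1 (k₀ := 5) (g := 4) (I := 1) (by decide) (by decide) (by decide)
    · exact eL1 (k₀ := 5) (g := 3) (I := 1) (by decide) (by decide) (by decide)
    · exact eR0 (g := 0) (I := 2) (by decide) (by decide)
    · exact eR0 (g := 1) (I := 2) (by decide) (by decide)
    · exact eZ
    · exact eL1 (k₀ := 4) (g := 3) (I := 2) (by decide) (by decide) (by decide)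
    · exact eL1 (k₀ := 5) (g := 4) (I := 2) (by decide) (by decide) (by decide)
    · exact eZ
    · exact eR1 (k₀ := 0) (g := 1) (I := 2) (by decide) (by decide) (by decide)
    · exact eRg (g := 2) (I := 2) t2.2.1 t2.2.2.2 (by decide) (by decide)
    · exact eRg (g := 2) (I := 2) t3.2.1 t3.2.2.2 (by decide) (by decide)
    · exact eLg (g := 4) (I := 2) t4.2.2.1 (by decide) (by decide)
    · exact eL1 (k₀ := 5) (g := 4) (I := 2) (by decide) (by decide) (by decide)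
    · exact eLg (g := 3) (I := 2) t6.2.2.1 (by decide) (by decide)
    · exact eZ
    · exact eR0 (g := 1) (I := 3) (by decide) (by decide)
    · exact eR0 (g := 2) (I := 3) (by decide) (by decide)
    · exact eZ
    · exact eL1 (k₀ := 5) (g := 4) (I := 3) (by decide) (by decide) (by decide)
    · exact eZ
    · exact eZ
    · exact eR1 (k₀ := 1) (g := 2) (I := 3) (by decide) (by decide) (by decide)
    · exact eRg (g := 2) (I := 3) t3.2.1 t3.2.2.2 (by decide) (by decide)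
    · exact eLg (g := 4) (I := 3) t4.2.2.1 (by decide) (by decide)
    · exact eLg (g := 4) (I := 3) t5.2.2.1 (by decide) (by decide)
    · exact eRg (g := 3) (I := 3) t6.2.1 t6.2.2.2 (by decide) (by decide)
    · exact eZ
    · exact eR0 (g := 1) (I := 4) (by decide) (by decide)
    · exact eR0 (g := 2) (I := 4) (by decide) (by decide)
    · exact eR1 (k₀ := 2) (g := 3) (I := 4) (by decide) (by decide) (by decide)
    · exact eZ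
    · exact eZ
    · exact eZ
    · exact eR1 (k₀ := 1) (g := 2) (I := 4) (by decide) (by decide) (by decide)
    · exact eR1 (k₀ := 1) (g := 2) (I := 4) (by decide) (by decide) (by decide)
    · exact eRg (g := 4) (I := 4) t4.2.1 t4.2.2.2 (by decide) (by decide)
    · exact eRg (g := 4) (I := 4) t5.2.1 t5.2.2.2 (by decide) (by decide)
    · exact eR1 (k₀ := 2) (g := 3) (I := 4) (by decide) (by decide) (by decide)
    · exact eZ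
    · exact eZ
    · exact eZ
    · exact eZ
    · exact eZ
    · exact eZ
    · exact eZ
    · exact eZ
    · exact eZ
    · exact eZ
    · exact eZ
    · exact eZ
  · intro I
    subst b0 b1 b2 b3 b4
    fin_cases I
    · refine Or.inr ⟨1, by decide, ?_, ?_, ⟨6, -2, δ, by simpa using f0.1, by simpa using f0.2.1, hδ,
        by simpa using f0.2.2⟩, ?_⟩ <;> simp only [sum12] <;> simp <;> linarith
    · refine Or.inr ⟨2, by decide, ?_, ?_, ⟨8, -2, δ, by simpa using f1.1, by simpa using f1.2.1, hδ,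
        by simpa using f1.2.2⟩, ?_⟩ <;> simp only [sum12] <;> simp <;> linarith
    · refine Or.inr ⟨3, by decide, ?_, ?_, ⟨8, 2, δ, by simpa using f2.1, by simpa using f2.2.1, hδ,
        by simpa using f2.2.2⟩, ?_⟩ <;> simp only [sum12] <;> simp <;> linarith
    · refine Or.inr ⟨4, by decide, ?_, ?_, ⟨8, 2, δ, by simpa using f3.1, by simpa using f3.2.1, hδ,
        by simpa using f3.2.2⟩, ?_⟩ <;> simp only [sum12] <;> simp <;> linarith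
    · refine Or.inr ⟨5, by decide, ?_, ?_, ⟨10, 2, δ, by simpa using f4.1, by simpa using f4.2.1, hδ,
        by simpa using f4.2.2⟩, ?_⟩ <;> simp only [sum12] <;> simp <;> linarith
    · refine Or.inl ⟨?_, ?_⟩ <;> simp only [sum12] <;> simp <;> linarith

end Pool.Agent.Lib.MP_6e81d8_ag.H93
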