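import Mathlib

/-!
Integer weights that realise a lexicographic family of tent functions.
-/

set_option autoImplicit false

namespace Pool.Agent.Lib.MP_6e81d8_ag.H93

open Finset

/-- The tent function with its kink at `B`, slope `-θ` on the left and `1 - θ` on the right. -/
noncomputable def cost (θ B t : ℝ) : ℝ := max (t - B) 0 - θ * (t - B)

/-- Lexicographic comparison of the costs of `t` and `t'`. -/
def Lt {N : ℕ} (B : Fin N → ℝ) (lv : Fin N → ℕ) (θ : Fin N → ℝ) (t t' : ℝ) : Prop :=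
  ∃ k₀, cost (θ k₀) (B k₀) t < cost (θ k₀) (B k₀) t' ∧
    ∀ k, lv k₀ ≤ lv k → cost (θ k) (B k) t ≤ cost (θ k) (B k) t'

theorem rank_node {W : ℕ} {θ : ℝ} (B : ℝ) (hθ : 0 ≤ θ) {D t t' : ℕ} (ht : t < D) :
    (W : ℝ) * (cost θ B t' - cost θ B t) - D ≤
      (((⌊(W : ℝ) * θ⌋₊ : ℤ) * t - max 0 ((W : ℤ) * t - ⌊(W : ℝ) * B⌋) -
        ((⌊(W : ℝ) * θ⌋₊ : ℤ) * t' - max 0 ((W : ℤ) * t' - ⌊(W : ℝ) * B⌋)) : ℤ) : ℝ) := by
  have hW : (0 : ℝ) ≤ W := Nat.cast_nonneg _
  have h1 := Nat.floor_le (mul_nonneg hW hθ)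
  have h2 := Nat.lt_floor_add_one ((W : ℝ) * θ)
  have h3 := Int.floor_le ((W : ℝ) * B)
  have h4 := Int.lt_floor_add_one ((W : ℝ) * B)
  have h5 : (t : ℝ) + 1 ≤ D := by exact_mod_cast ht
  have h6 := mul_le_mul_of_nonneg_right h1 (Nat.cast_nonneg (α := ℝ) t')
  have h7 := mul_le_mul_of_nonneg_right h2.le (Nat.cast_nonneg (α := ℝ) t)
  have h8 : (W : ℝ) * max ((t' : ℝ) - B) 0 ≤ max 0 ((W : ℝ) * t' - ⌊(W : ℝ) * B⌋) := by
    rw [mul_max_of_nonneg _ _ hW, mul_zero]
    exact max_le (le_max_of_le_right (by linarith)) (le_max_left _ _)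
  have h9 : max 0 ((W : ℝ) * t - ⌊(W : ℝ) * B⌋) ≤ (W : ℝ) * max ((t : ℝ) - B) 0 + 1 := by
    rw [mul_max_of_nonneg _ _ hW, mul_zero]
    have a1 := le_max_left ((W : ℝ) * (t - B)) 0
    have a2 := le_max_right ((W : ℝ) * (t - B)) 0
    exact max_le (by linarith) (by linarith)
  push_cast
  simp only [cost]
  linarith

theorem rank_lex {N : ℕ} (lv : Fin N → ℕ) (Δ : Fin N → ℝ) (k₀ : Fin N) (h0 : 0 < Δ k₀)
    (h : ∀ k, lv k₀ ≤ lv k → 0 ≤ Δ k) (M : ℝ) :
    ∀ᶠ C : ℕ in Filter.atTop, M < ∑ k, ((C ^ (lv k + 1) : ℕ) : ℝ) * Δ k := by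
  have h1 := ((tendsto_natCast_atTop_atTop (R := ℝ)).atTop_mul_const h0).eventually_gt_atTop
    (|M| + ∑ k, |Δ k|)
  filter_upwards [h1, Filter.eventually_ge_atTop 1] with C hC hC1
  have hC1' : (1 : ℝ) ≤ C := by exact_mod_cast hC1
  have hp : (1 : ℝ) ≤ (C : ℝ) ^ lv k₀ := one_le_pow₀ hC1'
  have h2 : ∀ k, (if k = k₀ then (C : ℝ) ^ lv k₀ * (C * Δ k₀) else 0) -
      (C : ℝ) ^ lv k₀ * |Δ k| ≤ ((C ^ (lv k + 1) : ℕ) : ℝ) * Δ k := by
    intro k
    have a0 : 0 ≤ (C : ℝ) ^ lv k₀ * |Δ k| := by positivity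
    push_cast
    split_ifs with hk
    · subst hk
      rw [pow_succ]
      linarith
    · rcases le_or_gt (lv k₀) (lv k) with hl | hl
      · have := mul_nonneg (by positivity : (0 : ℝ) ≤ (C : ℝ) ^ (lv k + 1)) (h k hl)
        linarith
      · have a1 : (C : ℝ) ^ (lv k + 1) ≤ (C : ℝ) ^ lv k₀ := pow_le_pow_right₀ hC1' hl
        have a2 := mul_le_mul_of_nonneg_right a1 (abs_nonneg (Δ k))
        have a3 := mul_le_mul_of_nonneg_left (neg_abs_le (Δ k))
          (by positivity : (0 : ℝ) ≤ (C : ℝ) ^ (lv k + 1))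
        linarith
  refine lt_of_lt_of_le ?_ (sum_le_sum fun k _ => h2 k)
  rw [sum_sub_distrib, sum_ite_eq' univ k₀, if_pos (mem_univ _), ← mul_sum, ← mul_sub]
  have a4 := le_abs_self M
  have a5 := abs_nonneg M
  have a6 := mul_le_mul_of_nonneg_right hp
    (show (0 : ℝ) ≤ C * Δ k₀ - ∑ k, |Δ k| by linarith)
  linarith

theorem weights {N : ℕ} {ι : Type} [Finite ι] (D : ℕ) (B : Fin N → ℝ) (lv : Fin N → ℕ)
    (θ : ι → Fin N → ℝ) (hθ : ∀ i k, 0 ≤ θ i k) :
    ∃ (lam : ℕ → ℤ) (v : ι → ℕ), ∀ i, ∀ t < D, ∀ t' < D,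
      (Lt B lv (θ i) t t' → (v i : ℤ) * t' - lam t' < (v i : ℤ) * t - lam t) ∧
      ((∀ k, (θ i k = 1 ∧ B k ≤ t ∧ B k ≤ t') ∨ (θ i k = 0 ∧ (t : ℝ) ≤ B k ∧ (t' : ℝ) ≤ B k)) →
        (v i : ℤ) * t' - lam t' = (v i : ℤ) * t - lam t) := by
  have h : ∀ᶠ C : ℕ in Filter.atTop, ∀ i, ∀ t ∈ range D, ∀ t' ∈ range D,
      Lt B lv (θ i) t t' → ((N : ℝ) * D) < ∑ k, ((C ^ (lv k + 1) : ℕ) : ℝ) *
        (cost (θ i k) (B k) t' - cost (θ i k) (B k) t) := by
    rw [Filter.eventually_all]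
    intro i
    rw [Filter.eventually_all_finset]
    intro t _
    rw [Filter.eventually_all_finset]
    intro t' _
    by_cases hh : Lt B lv (θ i) t t'
    · obtain ⟨k₀, h1, h2⟩ := hh
      exact (rank_lex lv (fun k => cost (θ i k) (B k) t' - cost (θ i k) (B k) t) k₀
        (sub_pos.2 h1) (fun k hk => sub_nonneg.2 (h2 k hk)) _).mono fun _ h _ => h
    · exact Filter.Eventually.of_forall fun _ h => absurd h hh
  obtain ⟨C, hC⟩ := h.exists
  refine ⟨fun t => ∑ k, max 0 (((C ^ (lv k + 1) : ℕ) : ℤ) * t - ⌊((C ^ (lv k + 1) : ℕ) : ℝ) * B k⌋),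
    fun i => ∑ k, ⌊((C ^ (lv k + 1) : ℕ) : ℝ) * θ i k⌋₊, fun i t ht t' ht' => ⟨fun hl => ?_, fun he => ?_⟩⟩
  · have h1 := hC i t (mem_range.2 ht) t' (mem_range.2 ht') hl
    have h2 := sum_le_sum fun k (_ : k ∈ univ) =>
      rank_node (W := C ^ (lv k + 1)) (B k) (hθ i k) (t' := t') ht
    rw [sum_sub_distrib, sum_const, card_univ, Fintype.card_fin, nsmul_eq_mul,
      ← Int.cast_sum] at h2
    have h3 := (sub_pos.2 h1).trans_le h2
    rw [Int.cast_pos, sum_sub_distrib, sum_sub_distrib, sum_sub_distrib, ← sum_mul, ← sum_mul,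
      ← Nat.cast_sum] at h3
    exact sub_pos.1 h3
  · simp only [Nat.cast_sum, sum_mul, ← sum_sub_distrib]
    refine sum_congr rfl fun k _ => ?_
    generalize C ^ (lv k + 1) = W
    have hW : (0 : ℝ) ≤ W := Nat.cast_nonneg _
    rcases he k with ⟨h1, h2, h3⟩ | ⟨h1, h2, h3⟩
    · have a : ∀ s : ℕ, B k ≤ s → 0 ≤ (W : ℤ) * s - ⌊(W : ℝ) * B k⌋ := fun s hs => by
        have a1 := Int.floor_le ((W : ℝ) * B k)
        have a2 := mul_le_mul_of_nonneg_left hs hW
        have : (0 : ℝ) ≤ (((W : ℤ) * s - ⌊(W : ℝ) * B k⌋ : ℤ) : ℝ) := by push_cast; linarith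
        exact_mod_cast this
      rw [h1, mul_one, Nat.floor_natCast, max_eq_right (a t h2), max_eq_right (a t' h3)]
      ring
    · have a : ∀ s : ℕ, (s : ℝ) ≤ B k → (W : ℤ) * s - ⌊(W : ℝ) * B k⌋ ≤ 0 := fun s hs => by
        rw [sub_nonpos, Int.le_floor]
        push_cast
        exact mul_le_mul_of_nonneg_left hs hW
      rw [h1, mul_zero, Nat.floor_zero, max_eq_left (a t h2), max_eq_left (a t' h3)]
      simp

/-- The slopes of a point whose home node is `g`. -/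
noncomputable def th {N : ℕ} (g : Fin N) (θ : ℝ) (k : Fin N) : ℝ :=
  if k < g then 1 else if k = g then θ else 0

/-- On the atom `I` the load of a point of type `(g, θ)` is at least `z - r * t`. -/
def Entry {N : ℕ} (b : Fin N → ℝ) (lv : Fin N → ℕ) (g : Fin N) (θ : ℝ) (I : Fin N)
    (r z : ℝ) : Prop :=
  (r = 0 ∧ z = 0) ∨
  (∃ k₀, k₀ ≤ g ∧ g ≤ I ∧ (g < I ∨ θ < 1) ∧ (∀ k, g < k → k ≤ I → lv k < lv k₀) ∧
    (k₀ = g ∨ θ = 1 ∨ lv g < lv k₀) ∧ r * th g θ k₀ = 1 ∧ z = 1 + r * b k₀) ∨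
  (∃ k₀, I < g ∧ g ≤ k₀ ∧ (∀ k, I < k → k ≤ g → k = k₀ ∨ lv k < lv k₀) ∧
    r * (th g θ k₀ - 1) = 1 ∧ z = 1 + r * b k₀)

/-- The real number `t` lies in the closed atom `I`. -/
def InAtom {N : ℕ} (B : Fin N → ℝ) (I : Fin N) (t : ℝ) : Prop :=
  ∀ k, (k ≤ I → B k ≤ t) ∧ (I < k → t ≤ B k)

theorem rank_cost_nonneg {θ : ℝ} (h0 : 0 ≤ θ) (h1 : θ ≤ 1) (B t : ℝ) : 0 ≤ cost θ B t := by
  unfold cost
  rcases le_total t B with h | h
  · rw [max_eq_right (by linarith)]; nlinarith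
  · rw [max_eq_left (by linarith)]; nlinarith

theorem rank_cost_left {θ B t : ℝ} (h : t ≤ B) : cost θ B t = θ * (B - t) := by
  unfold cost
  rw [max_eq_right (by linarith)]; ring

theorem rank_cost_right {θ B t : ℝ} (h : B ≤ t) : cost θ B t = (1 - θ) * (t - B) := by
  unfold cost
  rw [max_eq_left (by linarith)]; ring

theorem rank_th_lt {N : ℕ} {g k : Fin N} (θ : ℝ) (h : k < g) : th g θ k = 1 := by
  simp [th, h]

theorem rank_th_self {N : ℕ} (g : Fin N) (θ : ℝ) : th g θ g = θ := by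
  simp [th]

theorem rank_th_gt {N : ℕ} {g k : Fin N} (θ : ℝ) (h : g < k) : th g θ k = 0 := by
  simp [th, h.not_gt, h.ne']

theorem rank_th_mem {N : ℕ} (g k : Fin N) {θ : ℝ} (h0 : 0 < θ) (h1 : θ ≤ 1) :
    0 ≤ th g θ k ∧ th g θ k ≤ 1 := by
  unfold th
  split_ifs
  · norm_num
  · exact ⟨h0.le, h1⟩
  · norm_num

theorem rank_card_right {U : Finset ℕ} {t : ℕ} {L : ℝ} (hL : 0 ≤ L)
    (h : ∀ u ∈ U, t < u ∧ (u : ℝ) ≤ t + L) : (U.card : ℝ) ≤ L := by
  have h1 : U ⊆ Ioc t (t + ⌊L⌋₊) := fun u hu => by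
    obtain ⟨a1, a2⟩ := h u hu
    have a3 : u - t ≤ ⌊L⌋₊ := Nat.le_floor (by rw [Nat.cast_sub a1.le]; linarith)
    exact mem_Ioc.2 ⟨a1, by omega⟩
  have h2 := card_le_card h1
  rw [Nat.card_Ioc, Nat.add_sub_cancel_left] at h2
  exact (Nat.cast_le.2 h2).trans (Nat.floor_le hL)

theorem rank_card_left {U : Finset ℕ} {t : ℕ} {L : ℝ} (hL : 0 ≤ L)
    (h : ∀ u ∈ U, u < t ∧ (t : ℝ) - L ≤ u) : (U.card : ℝ) ≤ L := by
  have h1 : U ⊆ Ico (t - ⌊L⌋₊) t := fun u hu => by
    obtain ⟨a1, a2⟩ := h u hu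
    have a3 : t - u ≤ ⌊L⌋₊ := Nat.le_floor (by rw [Nat.cast_sub a1.le]; linarith)
    exact mem_Ico.2 ⟨by omega, a1⟩
  have h2 := card_le_card h1
  rw [Nat.card_Ico] at h2
  have h3 : U.card ≤ ⌊L⌋₊ := by omega
  exact (Nat.cast_le.2 h3).trans (Nat.floor_le hL)

theorem rank_sub_le (m c : ℕ) : (m : ℝ) - c ≤ ((m - c : ℕ) : ℝ) := by
  have : m ≤ (m - c) + c := by omega
  have h : (m : ℝ) ≤ ((m - c : ℕ) : ℝ) + c := by exact_mod_cast this
  linarith

theorem entry_card {N : ℕ} {b : Fin N → ℝ} {lv : Fin N → ℕ} {g I : Fin N} {θ r z : ℝ}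
    (h0 : 0 < θ) (h1 : θ ≤ 1) (hE : Entry b lv g θ I r z) (m : ℕ) {t : ℕ}
    (ht : InAtom (fun k => m * b k) I t) (U : Finset ℕ)
    (hU : ∀ t' ∈ U, t' ≠ t ∧ ¬ Lt (fun k => m * b k) lv (th g θ) t t') :
    m * z - r * t ≤ ((m - U.card : ℕ) : ℝ) := by
  have hnn : ∀ k s, 0 ≤ cost (th g θ k) (m * b k) s := fun k s =>
    rank_cost_nonneg (rank_th_mem g k h0 h1).1 (rank_th_mem g k h0 h1).2 _ _
  rcases hE with ⟨rfl, rfl⟩ | ⟨k₀, a1, a2, a3, a4, a5, a6, rfl⟩ | ⟨k₀, a1, a2, a3, a4, rfl⟩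
  · simp
  · have hB : ∀ k, k ≤ I → (m : ℝ) * b k ≤ t := fun k hk => (ht k).1 hk
    have hB' : ∀ k, I < k → (t : ℝ) ≤ m * b k := fun k hk => (ht k).2 hk
    have b0 := hB k₀ (a1.trans a2)
    obtain ⟨c0, c1⟩ := rank_th_mem g k₀ h0 h1
    have c2 : 0 < th g θ k₀ := c0.lt_of_ne fun h => by rw [← h] at a6; simp at a6
    have hr : 1 ≤ r := by nlinarith
    have z1 : ∀ k, k < g → cost (th g θ k) (m * b k) t = 0 := fun k hk => by
      rw [rank_cost_right (hB k (hk.le.trans a2)), rank_th_lt θ hk]; simp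
    have z2 : ∀ k, I < k → cost (th g θ k) (m * b k) t = 0 := fun k hk => by
      rw [rank_cost_left (hB' k hk), rank_th_gt θ (a2.trans_lt hk)]; simp
    have hc := rank_card_left (U := U) (t := t) (L := r * (t - m * b k₀))
      (mul_nonneg (by linarith) (by linarith)) fun u hu => by
      obtain ⟨d1, d2⟩ := hU u hu
      constructor
      · by_contra hh
        have e1 : (t : ℝ) < u := by exact_mod_cast lt_of_le_of_ne (not_lt.1 hh) d1.symm
        have e2 : ∀ k, cost (th g θ k) (m * b k) t ≤ cost (th g θ k) (m * b k) u := fun k => by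
          rcases le_or_gt k I with hk | hk
          · rw [rank_cost_right (hB k hk), rank_cost_right ((hB k hk).trans e1.le)]
            have := (rank_th_mem g k h0 h1).2
            nlinarith
          · rw [z2 k hk]; exact hnn _ _
        rcases a3 with a3 | a3
        · refine d2 ⟨I, ?_, fun k _ => e2 k⟩
          rw [rank_cost_right (hB I le_rfl), rank_cost_right ((hB I le_rfl).trans e1.le),
            rank_th_gt θ a3]
          linarith
        · refine d2 ⟨g, ?_, fun k _ => e2 k⟩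
          rw [rank_cost_right (hB g a2), rank_cost_right ((hB g a2).trans e1.le), rank_th_self]
          nlinarith
      · by_contra hh
        have e1 := not_le.1 hh
        have e2 : (u : ℝ) ≤ m * b k₀ := by nlinarith
        have e3 : cost (th g θ k₀) (m * b k₀) t < cost (th g θ k₀) (m * b k₀) u := by
          rw [rank_cost_right b0, rank_cost_left e2]
          have f1 := mul_lt_mul_of_pos_left e1 c2
          have f2 : th g θ k₀ * (r * (t - m * b k₀)) = t - m * b k₀ := by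
            rw [← mul_assoc, mul_comm _ r, a6, one_mul]
          nlinarith
        refine d2 ⟨k₀, e3, fun k hk => ?_⟩
        rcases lt_trichotomy k g with h | h | h
        · rw [z1 k h]; exact hnn _ _
        · subst h
          rcases a5 with a5 | a5 | a5
          · subst a5; exact e3.le
          · refine le_trans (le_of_eq ?_) (hnn _ _)
            rw [rank_cost_right (hB k a2), rank_th_self, a5]; simp
          · exact absurd hk (not_le.2 a5)
        · rcases le_or_gt k I with h' | h'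
          · exact absurd hk (not_le.2 (a4 k h h'))
          · rw [z2 k h']; exact hnn _ _
    have := rank_sub_le m U.card
    nlinarith
  · have hB : ∀ k, k ≤ I → (m : ℝ) * b k ≤ t := fun k hk => (ht k).1 hk
    have hB' : ∀ k, I < k → (t : ℝ) ≤ m * b k := fun k hk => (ht k).2 hk
    have b0 := hB' k₀ (a1.trans_le a2)
    obtain ⟨c0, c1⟩ := rank_th_mem g k₀ h0 h1
    have c2 : th g θ k₀ < 1 := c1.lt_of_ne fun h => by rw [h] at a4; simp at a4
    have hr : r ≤ -1 := by nlinarith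
    have z1 : ∀ k, k ≤ I → cost (th g θ k) (m * b k) t = 0 := fun k hk => by
      rw [rank_cost_right (hB k hk), rank_th_lt θ (hk.trans_lt a1)]; simp
    have z2 : ∀ k, g < k → cost (th g θ k) (m * b k) t = 0 := fun k hk => by
      rw [rank_cost_left (hB' k (a1.trans hk)), rank_th_gt θ hk]; simp
    have hc := rank_card_right (U := U) (t := t) (L := -r * (m * b k₀ - t))
      (mul_nonneg (by linarith) (by linarith)) fun u hu => by
      obtain ⟨d1, d2⟩ := hU u hu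
      constructor
      · by_contra hh
        have e1 : (u : ℝ) < t := by exact_mod_cast lt_of_le_of_ne (not_lt.1 hh) d1
        refine d2 ⟨g, ?_, fun k _ => ?_⟩
        · rw [rank_cost_left (hB' g a1), rank_cost_left (e1.le.trans (hB' g a1)), rank_th_self]
          nlinarith
        · rcases le_or_gt k I with hk | hk
          · rw [z1 k hk]; exact hnn _ _
          · rw [rank_cost_left (hB' k hk), rank_cost_left (e1.le.trans (hB' k hk))]
            have := (rank_th_mem g k h0 h1).1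
            nlinarith
      · by_contra hh
        have e1 := not_le.1 hh
        have e2 : (m : ℝ) * b k₀ ≤ u := by nlinarith
        have e3 : cost (th g θ k₀) (m * b k₀) t < cost (th g θ k₀) (m * b k₀) u := by
          rw [rank_cost_left b0, rank_cost_right e2]
          have f1 := mul_lt_mul_of_pos_left e1 (sub_pos.2 c2)
          have f2 : (1 - th g θ k₀) * (-r * (m * b k₀ - t)) = m * b k₀ - t := by
            have : (1 - th g θ k₀) * -r = 1 := by linarith
            rw [← mul_assoc, this, one_mul]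
          nlinarith
        refine d2 ⟨k₀, e3, fun k hk => ?_⟩
        rcases le_or_gt k I with h | h
        · rw [z1 k h]; exact hnn _ _
        · rcases le_or_gt k g with h' | h'
          · rcases a3 k h h' with a5 | a5
            · subst a5; exact e3.le
            · exact absurd hk (not_le.2 a5)
          · rw [z2 k h']; exact hnn _ _
    have := rank_sub_le m U.card
    nlinarith

theorem resident_lt {N : ℕ} {B : Fin N → ℝ} {lv : Fin N → ℕ} {I : Fin N} {t t' : ℝ}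
    (ht : InAtom B I t) (ht' : ¬ InAtom B I t') : Lt B lv (th I 1) t t' := by
  have t1 : ∀ k, k ≤ I → th I 1 k = 1 := fun k hk => by
    rcases hk.lt_or_eq with h | h
    · exact rank_th_lt 1 h
    · rw [h, rank_th_self]
  have z : ∀ k, cost (th I 1 k) (B k) t = 0 := fun k => by
    rcases le_or_gt k I with h | h
    · rw [rank_cost_right ((ht k).1 h), t1 k h]; simp
    · rw [rank_cost_left ((ht k).2 h), rank_th_gt 1 h]; simp
  have hnn : ∀ k, cost (th I 1 k) (B k) t ≤ cost (th I 1 k) (B k) t' := fun k => by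
    rw [z]
    exact rank_cost_nonneg (rank_th_mem I k one_pos le_rfl).1 (rank_th_mem I k one_pos le_rfl).2 _ _
  obtain ⟨k, hk⟩ := not_forall.1 ht'
  refine ⟨k, ?_, fun k _ => hnn k⟩
  rw [z]
  rcases not_and_or.1 hk with h | h
  · obtain ⟨a1, a2⟩ := Classical.not_imp.1 h
    rw [rank_cost_left (not_le.1 a2).le, t1 k a1]
    linarith [not_le.1 a2]
  · obtain ⟨a1, a2⟩ := Classical.not_imp.1 h
    rw [rank_cost_right (not_le.1 a2).le, rank_th_gt 1 a1]
    linarith [not_le.1 a2]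

end Pool.Agent.Lib.MP_6e81d8_ag.H93
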