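import Pool.Agent.Lib.MP_6e81d8_ag.Final

/-!
The leading form of a solution along points `(x i, c i * T ^ v i)`.
-/

set_option autoImplicit false

namespace Pool.Agent.Lib.MP_6e81d8_ag.H93

open Polynomial Finset H16

lemma val_apply {ι K : Type} [Field K] (D : ℕ) (a : ℕ → ℕ) (m : ι → ℕ)
    (v : ι → ℕ) (x c : ι → K) (F : Col D a → K[X])
    (h : (Mat D a m (fun i => ![C (x i), C (c i) * X ^ v i])).mulVec F = 0)
    (i : ι) (q : K[X]) (j : ℕ) (hj : j + q.natDegree < m i) :
    ∑ s : Col D a, C (((s.2.val.descFactorial j : ℕ) : K) * q.eval ((s.1.val : ℕ) : K) *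
      c i ^ s.1.val * (x i) ^ (s.2.val - j)) * (F s * X ^ (v i * s.1.val)) = 0 := by
  have heq : ∀ k < q.natDegree + 1, ∑ s : Col D a,
      ((s.2.val.descFactorial j : ℕ) : K[X]) * ((s.1.val : ℕ) : K[X]) ^ k *
        C (x i) ^ (s.2.val - j) * (C (c i) * X ^ v i) ^ s.1.val * F s = 0 := by
    intro k hk
    have h1 : k < m i := by omega
    have h2 : j < m i - k := by omega
    have := congrFun h ⟨i, ⟨k, h1⟩, ⟨j, h2⟩⟩
    simpa [Matrix.mulVec, dotProduct, Mat] using this
  have : ∑ k ∈ range (q.natDegree + 1), C (q.coeff k) * ∑ s : Col D a,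
      ((s.2.val.descFactorial j : ℕ) : K[X]) * ((s.1.val : ℕ) : K[X]) ^ k *
        C (x i) ^ (s.2.val - j) * (C (c i) * X ^ v i) ^ s.1.val * F s = 0 := by
    apply Finset.sum_eq_zero
    intro k hk
    rw [heq k (mem_range.mp hk), mul_zero]
  rw [← this]
  simp_rw [Finset.mul_sum]
  rw [Finset.sum_comm]
  apply Finset.sum_congr rfl
  intro s _
  rw [eval_eq_sum_range]
  simp only [Finset.mul_sum, Finset.sum_mul, map_sum]
  apply Finset.sum_congr rfl
  intro k _
  simp only [map_mul, map_pow, map_natCast, mul_pow, ← pow_mul]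
  ring

theorem leading {ι K : Type} [Fintype ι] [Field K] (D : ℕ) (a : ℕ → ℕ) (m : ι → ℕ)
    (lam : ℕ → ℤ) (v : ι → ℕ) (x c : ι → K) (F : Col D a → K[X]) (hF : F ≠ 0)
    (h : (Mat D a m (fun i => ![C (x i), C (c i) * X ^ v i])).mulVec F = 0) :
    ∃ g : ℕ → K[X], (∃ t < D, g t ≠ 0) ∧ (∀ t, g t ≠ 0 → (g t).natDegree < a t) ∧
      ∀ (i : ι) (l : ℤ) (q : K[X]) (j : ℕ), j + q.natDegree < m i →
        (∀ t < D, l < (v i : ℤ) * t - lam t → q.eval (t : K) = 0) →
        ∑ t ∈ (range D).filter (fun t : ℕ => (v i : ℤ) * t - lam t = l),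
          q.eval (t : K) * c i ^ t * (derivative^[j] (g t)).eval (x i) = 0 := by
  classical
  have hS : (univ.filter (fun s : Col D a => F s ≠ 0)).Nonempty := by
    by_contra hh
    apply hF
    funext s
    by_contra hs
    exact hh ⟨s, by simpa using hs⟩
  obtain ⟨s₀, hs₀, hmax⟩ := exists_max_image _
    (fun s : Col D a => ((F s).natDegree : ℤ) + lam s.1.val) hS
  have hs₀' : F s₀ ≠ 0 := by simpa using hs₀
  set w : ℤ := ((F s₀).natDegree : ℤ) + lam s₀.1.val with hw
  have hmax' : ∀ s : Col D a, F s ≠ 0 → ((F s).natDegree : ℤ) + lam s.1.val ≤ w :=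
    fun s hs => hmax s (by simpa using hs)
  let g' : Fin D → K[X] := fun t =>
    ∑ s : Fin (a t), monomial s.val ((F ⟨t, s⟩).coeff (w - lam t.val).toNat)
  have hgcoeff : ∀ (t : Fin D) (s : Fin (a t)),
      (g' t).coeff s.val = (F ⟨t, s⟩).coeff (w - lam t.val).toNat := by
    intro t s
    simp only [g', finsetSum_coeff, coeff_monomial]
    rw [Finset.sum_eq_single s]
    · simp
    · intro b _ hb
      rw [if_neg]
      exact fun hh => hb (Fin.ext hh)
    · simp
  have hgdeg : ∀ t : Fin D, g' t ≠ 0 → (g' t).natDegree < a t := by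
    intro t ht
    rw [natDegree_lt_iff_degree_lt ht]
    refine lt_of_le_of_lt (degree_sum_le _ _) ?_
    rw [Finset.sup_lt_iff (WithBot.bot_lt_coe _)]
    intro s _
    exact lt_of_le_of_lt (degree_monomial_le _ _) (by exact_mod_cast s.isLt)
  refine ⟨fun t => if ht : t < D then g' ⟨t, ht⟩ else 0, ⟨s₀.1.val, s₀.1.isLt, ?_⟩, ?_, ?_⟩
  · simp only [s₀.1.isLt, dif_pos]
    intro hg
    have h1 := hgcoeff s₀.1 s₀.2
    have h2 : (w - lam s₀.1.val).toNat = (F s₀).natDegree := by omega
    rw [h2] at h1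
    have hg' : g' s₀.1 = 0 := hg
    rw [hg', coeff_zero] at h1
    exact hs₀' (leadingCoeff_eq_zero.mp h1.symm)
  · intro t ht
    by_cases htD : t < D
    · simp only [htD, dif_pos] at ht ⊢
      exact hgdeg ⟨t, htD⟩ ht
    · simp [htD] at ht
  · intro i l q j hj hq
    have hcoef := congrArg (fun P : K[X] => P.coeff (w + l).toNat) (val_apply D a m v x c F h i q j hj)
    simp only [finsetSum_coeff, coeff_C_mul, coeff_zero] at hcoef
    rw [Fintype.sum_sigma] at hcoef
    rw [Finset.sum_filter, Finset.sum_range]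
    refine Eq.trans (Finset.sum_congr rfl fun t _ => ?_) hcoef
    simp only [t.isLt, dif_pos, Fin.eta]
    split_ifs with hl
    · simp only [g', iterate_derivative_sum, eval_finsetSum, Finset.mul_sum]
      refine Finset.sum_congr rfl fun s _ => ?_
      by_cases hs : F ⟨t, s⟩ = 0
      · simp [hs]
      · have h1 := hmax' _ hs
        have h2 : (w + l).toNat = (w - lam t.val).toNat + v i * t.val := by
          simp only at h1
          zify
          rw [Int.toNat_of_nonneg (by
            have : (0 : ℤ) ≤ (v i : ℤ) * t.val := by positivity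
            omega), Int.toNat_of_nonneg (by omega)]
          omega
        rw [h2, coeff_mul_X_pow, ← C_mul_X_pow_eq_monomial, iterate_derivative_C_mul,
          iterate_derivative_X_pow_eq_natCast_mul]
        simp
        ring
    · symm
      refine Finset.sum_eq_zero fun s _ => ?_
      rcases lt_or_gt_of_ne hl with hlt | hgt
      · by_cases hs : F ⟨t, s⟩ = 0
        · simp [hs]
        · have h1 := hmax' _ hs
          have : (F ⟨t, s⟩ * X ^ (v i * t.val)).coeff (w + l).toNat = 0 := by
            apply coeff_eq_zero_of_natDegree_lt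
            refine lt_of_le_of_lt natDegree_mul_le ?_
            rw [natDegree_X_pow, Int.lt_toNat]
            simp only at h1
            push_cast
            omega
          rw [this, mul_zero]
      · simp [hq t.val t.isLt hgt]

lemma val_gram {ρ κ : Type} [Fintype ρ] [Fintype κ] [DecidableEq κ]
    (M : Matrix ρ κ ℚ[X]) (h : ∀ c, M.mulVec c = 0 → c = 0) :
    (M.transpose * M).det ≠ 0 := by
  intro hdet
  obtain ⟨c, hc0, hc⟩ := Matrix.exists_mulVec_eq_zero_iff.mpr hdet
  apply hc0
  apply h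
  have h1 : dotProduct (M.mulVec c) (M.mulVec c) = 0 := by
    have : dotProduct c ((M.transpose * M).mulVec c) = 0 := by rw [hc]; simp
    rw [← Matrix.mulVec_mulVec, Matrix.dotProduct_mulVec, Matrix.vecMul_transpose] at this
    exact this
  funext k
  apply Polynomial.funext
  intro τ
  have h2 := congrArg (Polynomial.eval τ) h1
  simp only [dotProduct, Polynomial.eval_finsetSum, Polynomial.eval_mul, Polynomial.eval_zero] at h2
  have h3 := (Finset.sum_eq_zero_iff_of_nonneg (fun k _ => mul_self_nonneg _)).mp h2 k (mem_univ k)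
  simpa using h3

lemma val_generic {n D : ℕ} {a : ℕ → ℕ} {m : Fin n → ℕ} (P : Fin n → Fin 2 → ℚ[X])
    (h : ∀ F : Col D a → ℚ[X], (Mat D a m P).mulVec F = 0 → F = 0) :
    ∃ p : Fin n → Fin 2 → ℂ, ∀ c : Col D a → ℂ, (Mat D a m p).mulVec c = 0 → c = 0 := by
  classical
  have hdet := val_gram _ h
  let φ : ℚ[X] →+* ℂ[X] := Polynomial.mapRingHom (algebraMap ℚ ℂ)
  have hφ : Function.Injective φ := Polynomial.map_injective _ (algebraMap ℚ ℂ).injective
  have h1 : φ ((Mat D a m P).transpose * Mat D a m P).det ≠ 0 :=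
    fun h0 => hdet (hφ (by rw [h0, map_zero]))
  obtain ⟨τ, hτ⟩ : ∃ τ : ℂ, (φ ((Mat D a m P).transpose * Mat D a m P).det).eval τ ≠ 0 := by
    by_contra hh
    push Not at hh
    exact h1 (Polynomial.funext fun τ => by rw [hh τ, eval_zero])
  let ψ : ℚ[X] →+* ℂ := (evalRingHom τ).comp φ
  refine ⟨fun i e => ψ (P i e), fun c hc => ?_⟩
  have h2 : ψ ((Mat D a m P).transpose * Mat D a m P).det =
      ((Mat D a m fun i e => ψ (P i e)).transpose * Mat D a m fun i e => ψ (P i e)).det := by
    rw [RingHom.map_det]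
    congr 1
    simp only [RingHom.mapMatrix_apply, Matrix.map_mul, Matrix.transpose_map, Mat_map]
  by_contra hne
  apply hτ
  change ψ _ = 0
  rw [h2]
  apply Matrix.exists_mulVec_eq_zero_iff.mp
  exact ⟨c, hne, by rw [← Matrix.mulVec_mulVec, hc, Matrix.mulVec_zero]⟩

theorem good_of_inj {n D : ℕ} {a : ℕ → ℕ} {m : Fin n → ℕ} (P : Fin n → Fin 2 → ℚ[X])
    (h : ∀ F : Col D a → ℚ[X], (Mat D a m P).mulVec F = 0 → F = 0) :
    Good m (tr D a) univ 0 := by
  classical
  obtain ⟨q, hq⟩ := val_generic P h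
  let e := Bivariate.equivMvPolynomial ℂ
  refine ⟨fun i => (q i 0, q i 1), 0, fun F hF hV _ => ?_⟩
  let c : Col D a → ℂ := fun s => (F.coeff s.1.val).coeff s.2.val
  have hF' : F = e.symm (emb D a c) := by
    have h2 : ∀ (s t : ℕ) (z : ℂ), e.symm (MvPolynomial.monomial (ex s t) z)
        = monomial t (monomial s z) := by
      intro s t z
      rw [monomial_ex, map_mul, map_mul, map_pow, map_pow,
        Bivariate.equivMvPolynomial_symm_C, Bivariate.equivMvPolynomial_symm_X_0,
        Bivariate.equivMvPolynomial_symm_X_1, ← C_mul_X_pow_eq_monomial,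
        ← C_mul_X_pow_eq_monomial, C_mul, C_pow]
    rw [emb_apply, map_sum]
    simp only [h2]
    ext b s
    rw [finsetSum_coeff, finsetSum_coeff]
    by_cases hb : s < tr D a b
    · have hb1 : b < D := by
        by_contra hh
        rw [tr_of_le _ (not_lt.mp hh)] at hb
        omega
      rw [tr_of_lt _ hb1] at hb
      rw [Finset.sum_eq_single (⟨⟨b, hb1⟩, ⟨s, hb⟩⟩ : Col D a)]
      · simp [c]
      · rintro ⟨⟨b', hb'⟩, ⟨s', hs'⟩⟩ _ hne
        simp only [coeff_monomial]
        split_ifs with h3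
        · subst h3
          rw [coeff_monomial, if_neg]
          rintro rfl
          exact hne rfl
        · rfl
      · simp
    · rw [mem_lt.mp (mem_rows.mp hF b) s (not_lt.mp hb), eq_comm]
      refine Finset.sum_eq_zero ?_
      rintro ⟨⟨b', hb'⟩, ⟨s', hs'⟩⟩ _
      simp only [coeff_monomial]
      split_ifs with h3
      · subst h3
        rw [coeff_monomial, if_neg]
        rintro rfl
        exact hb (by rwa [tr_of_lt _ hb'])
      · rfl
  have hc0 : c = 0 := by
    refine hq c (mulVec_eq_zero_of_mem D a m _ c fun i => ?_)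
    have h4 := pow_map (e : R →+* MvPolynomial (Fin 2) ℂ)
      (J := RingHom.ker (MvPolynomial.eval fun j => q i j)) (fun x hx => ?_) (hV i (mem_univ i))
    · rw [hF'] at h4
      simpa using h4
    · have h5 : (ev (q i 0, q i 1)).comp e.symm.toAlgHom =
          MvPolynomial.aeval fun j => q i j := by
        refine MvPolynomial.algHom_ext fun j => ?_
        fin_cases j <;> simp [e]
      have h6 := DFunLike.congr_fun h5 (e x)
      rw [mem_mx] at hx
      rw [RingHom.mem_ker]
      simpa [hx] using h6.symm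
  rw [hF', hc0, map_zero, map_zero]

end Pool.Agent.Lib.MP_6e81d8_ag.H93
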