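import Pool.Agent.Lib.MP_6e81d8_ag.H93.Gen
import Pool.Agent.Lib.MP_6e81d8_ag.H93.Leaf
import Pool.Agent.Lib.MP_6e81d8_ag.H93.Val
import Pool.Agent.Lib.MP_6e81d8_ag.H93.Rank

/-!
From a balanced design to the emptiness of the system on a trapezoid.
-/

set_option autoImplicit false

namespace Pool.Agent.Lib.MP_6e81d8_ag.H93

open Polynomial Finset H16

/-- The balance condition on the atom `I`: `β` is the slope of the residual length, `ν` the
number of residents and `w` the value `Z + ν - S * H`. -/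
def Bal {N : ℕ} (b : Fin N → ℝ) (I : Fin N) (β ν w : ℝ) (fr : Prop) : Prop :=
  (β + ν = 0 ∧ β * b I ≤ w) ∨
  (∃ I', I < I' ∧ -ν ≤ β ∧ β ≤ ν ∧ fr ∧ β * b I + (β + ν) * (b I' - b I) / 2 ≤ w)

lemma design_th {N : ℕ} {g : Fin N} {θ : ℝ} (h : 0 ≤ θ) (k : Fin N) : 0 ≤ th g θ k := by
  unfold th
  split_ifs
  · exact zero_le_one
  · exact h
  · exact le_rfl

lemma design_th1 {N : ℕ} {g k : Fin N} (h : k ≤ g) : th g 1 k = 1 := by
  unfold th
  rcases h.eq_or_lt with h | h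
  · rw [if_pos h, ite_self]
  · rw [if_pos h]

lemma design_th0 {N : ℕ} {g k : Fin N} (h : g < k) : th g 1 k = 0 := by
  rw [th, if_neg (not_lt.2 h.le), if_neg h.ne']

lemma design_atom {N : ℕ} {B : Fin N → ℝ} (hB : Monotone B) {k₀ : Fin N} {t : ℝ}
    (h : B k₀ ≤ t) : ∃ I, InAtom B I t := by
  classical
  obtain ⟨I, hI, hm⟩ := exists_max_image (univ.filter fun k => B k ≤ t) id
    ⟨k₀, mem_filter.2 ⟨mem_univ _, h⟩⟩
  refine ⟨I, fun k => ⟨fun hk => (hB hk).trans (mem_filter.1 hI).2, fun hk => ?_⟩⟩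
  by_contra h'
  exact absurd (hm k (mem_filter.2 ⟨mem_univ _, (not_le.1 h').le⟩)) (not_le.2 hk)

lemma design_sum {n : ℕ} (J : Finset (Fin n)) (u w : Fin n → ℝ) :
    ∑ i, (if i ∈ J then u i else w i) = ∑ i ∈ J, u i + ∑ i ∈ Jᶜ, w i := by
  rw [← sum_add_sum_compl J]
  congr 1
  · exact sum_congr rfl fun i hi => if_pos hi
  · exact sum_congr rfl fun i hi => if_neg (mem_compl.1 hi)

lemma design_coeff {U : Finset ℕ} {τ : ℕ} (hτ : ∀ t ∈ U, τ ≤ t) (f : ℕ → ℚ[X]) {t : ℕ}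
    (ht : t ∈ U) : (∑ t ∈ U, monomial (t - τ) (f t)).coeff (t - τ) = f t := by
  rw [finsetSum_coeff, sum_eq_single_of_mem t ht, coeff_monomial_same]
  intro u hu hut
  have h1 := hτ u hu
  have h2 := hτ t ht
  rw [coeff_monomial, if_neg (by omega)]

lemma design_coeff' {U : Finset ℕ} {τ : ℕ} (hτ : ∀ t ∈ U, τ ≤ t) (f : ℕ → ℚ[X]) {s : ℕ}
    (hs : (∑ t ∈ U, monomial (t - τ) (f t)).coeff s ≠ 0) :
    τ + s ∈ U ∧ (∑ t ∈ U, monomial (t - τ) (f t)).coeff s = f (τ + s) := by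
  have h := hs
  rw [finsetSum_coeff] at h
  obtain ⟨t, ht, h⟩ := exists_ne_zero_of_sum_ne_zero h
  rw [coeff_monomial] at h
  have e : t - τ = s := by
    by_contra e
    exact h (if_neg e)
  have h1 := hτ t ht
  obtain rfl : t = τ + s := by omega
  exact ⟨ht, by rw [← design_coeff hτ f ht, e]⟩

lemma design_mult {p : ℚ[X]} (hp : p ≠ 0) {x : ℚ} {M : ℕ}
    (h : ∀ j < M, (derivative^[j] p).eval x = 0) : M ≤ rootMultiplicity x p := by
  rcases M with _ | M
  · exact Nat.zero_le _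
  · exact lt_rootMultiplicity_of_isRoot_iterate_derivative hp fun j hj => h j (by omega)

lemma design_non {D m t : ℕ} {ψ : ℕ → ℤ} (ht : t < D) (f : ℕ → ℚ[X]) (hf : f t ≠ 0) {c : ℚ}
    (hc : c ≠ 0) (x : ℚ)
    (h : ∀ (q : ℚ[X]) (j : ℕ), j + q.natDegree < m →
      (∀ u < D, ψ t < ψ u → q.eval (u : ℚ) = 0) →
      ∑ u ∈ (range D).filter (fun u : ℕ => ψ u = ψ t),
        q.eval (u : ℚ) * c ^ u * (derivative^[j] (f u)).eval x = 0) :
    m - (((range D).erase t).filter fun u => ψ t ≤ ψ u).card ≤ rootMultiplicity x (f t) := by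
  set V := ((range D).erase t).filter fun u => ψ t ≤ ψ u with hV
  refine design_mult hf fun j hj => ?_
  have hq : ∀ u < D, u ≠ t → ψ t ≤ ψ u → (∏ w ∈ V, (X - C (w : ℚ))).eval (u : ℚ) = 0 :=
    fun u h1 h2 h3 => by
      rw [eval_prod]
      refine prod_eq_zero (mem_filter.2 ⟨mem_erase.2 ⟨h2, mem_range.2 h1⟩, h3⟩) ?_
      rw [eval_sub, eval_X, eval_C, sub_self]
  have hq' : (∏ w ∈ V, (X - C (w : ℚ))).eval (t : ℚ) ≠ 0 := by
    rw [eval_prod]
    refine prod_ne_zero_iff.2 fun w hw => ?_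
    rw [eval_sub, eval_X, eval_C, sub_ne_zero]
    exact fun e => (mem_erase.1 (mem_filter.1 hw).1).1 (Nat.cast_injective e).symm
  have e := h (∏ w ∈ V, (X - C (w : ℚ))) j
    (by rw [natDegree_finsetProd_X_sub_C_eq_card]; omega)
    fun u h1 h2 => hq u h1 (fun e => by rw [e] at h2; exact lt_irrefl _ h2) h2.le
  have mt : t ∈ (range D).filter fun u : ℕ => ψ u = ψ t := mem_filter.2 ⟨mem_range.2 ht, rfl⟩
  rw [sum_eq_single_of_mem t mt fun u hu hut => by
    rw [hq u (mem_range.1 (mem_filter.1 hu).1) hut (mem_filter.1 hu).2.ge, zero_mul, zero_mul]] at e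
  exact (mul_eq_zero.1 e).resolve_left (mul_ne_zero hq' (pow_ne_zero _ hc))

lemma design_res {U : Finset ℕ} {τ m : ℕ} (hτ : ∀ t ∈ U, τ ≤ t) (f : ℕ → ℚ[X]) {c : ℚ}
    (hc : c ≠ 0) (x : ℚ)
    (h : ∀ (q : ℚ[X]) (j : ℕ), j + q.natDegree < m →
      ∑ u ∈ U, q.eval (u : ℚ) * c ^ u * (derivative^[j] (f u)).eval x = 0) {k : ℕ}
    (hk : (taylor (C c) (∑ t ∈ U, monomial (t - τ) (f t))).coeff k ≠ 0) :
    m ≤ rootMultiplicity x ((taylor (C c) (∑ t ∈ U, monomial (t - τ) (f t))).coeff k) + k := by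
  rw [← tsub_le_iff_right]
  refine design_mult hk fun j hj => ?_
  have e := h ((descPochhammer ℚ k).comp (X - C (τ : ℚ))) j (by
    rw [natDegree_comp, descPochhammer_natDegree, natDegree_X_sub_C]
    omega)
  have e1 : (taylor (C c) (∑ t ∈ U, monomial (t - τ) (f t))).coeff k =
      ∑ t ∈ U, C (c ^ (t - τ - k) * (t - τ).choose k) * f t := by
    rw [map_sum, finsetSum_coeff]
    refine sum_congr rfl fun t _ => ?_
    rw [taylor_monomial, coeff_C_mul, coeff_X_add_C_pow, C_mul, C_pow, map_natCast, mul_comm]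
  rw [e1, iterate_derivative_sum, eval_finsetSum]
  have n0 : (k.factorial : ℚ) * c ^ (τ + k) ≠ 0 :=
    mul_ne_zero (Nat.cast_ne_zero.2 k.factorial_ne_zero) (pow_ne_zero _ hc)
  refine (mul_eq_zero.1 ?_).resolve_left n0
  rw [← e, mul_sum]
  refine sum_congr rfl fun t ht => ?_
  obtain ⟨s, rfl⟩ := Nat.exists_eq_add_of_le (hτ t ht)
  rw [iterate_derivative_C_mul, eval_mul, eval_C, eval_comp, eval_sub, eval_X, eval_C,
    Nat.add_sub_cancel_left, Nat.cast_add, add_sub_cancel_left,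
    descPochhammer_eval_eq_descFactorial, Nat.descFactorial_eq_factorial_mul_choose, Nat.cast_mul]
  rcases lt_or_ge s k with h1 | h1
  · simp [Nat.choose_eq_zero_of_lt h1]
  · obtain ⟨u, rfl⟩ := Nat.exists_eq_add_of_le h1
    rw [Nat.add_sub_cancel_left]
    ring

theorem design {n N : ℕ} (b : Fin N → ℝ) (hb : Monotone b) (k₀ : Fin N) (h0 : b k₀ ≤ 0)
    (lv : Fin N → ℕ) (g : Fin n → Fin N) (θ : Fin n → ℝ) (hθ : ∀ i, 0 < θ i ∧ θ i ≤ 1)
    (r z : Fin N → Fin n → ℝ) (J : Fin N → Finset (Fin n))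
    (hJ : ∀ I, ∀ i ∈ J I, g i = I ∧ θ i = 1)
    (hE : ∀ I, ∀ i ∉ J I, Entry b lv (g i) (θ i) I (r I i) (z I i)) (S H : ℝ)
    (hB : ∀ I, Bal b I (∑ i ∈ (J I)ᶜ, r I i - S) (J I).card
      (∑ i ∈ (J I)ᶜ, z I i + (J I).card - S * H)
      (∀ y : Fin n → ℤ, 1 ≤ ∑ i ∈ (J I)ᶜ, |(y i : ℝ) - r I i|))
    (m D : ℕ) (a : ℕ → ℕ) (ha : ∀ t < D, 0 < a t → (a t : ℝ) ≤ S * (H * m - t)) :
    Good (fun _ : Fin n => m) (tr D a) univ 0 := by
  obtain ⟨x, c, hx, hc, hgen⟩ := exists_gen n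
  obtain ⟨lam, v, hw⟩ := weights D (fun k => m * b k) lv (fun i => th (g i) (θ i))
    fun i k => design_th (hθ i).1.le k
  refine good_of_inj (fun i => ![C (x i), C (c i) * X ^ v i]) fun F hF => ?_
  by_contra hF0
  obtain ⟨f, ⟨t₀, ht₀, hf₀⟩, hfd, hL⟩ := leading D a (fun _ : Fin n => m) lam v x c F hF0 hF
  have hm : (0 : ℝ) ≤ m := Nat.cast_nonneg m
  obtain ⟨I, hI⟩ := design_atom (B := fun k => m * b k)
    (fun k l h => mul_le_mul_of_nonneg_left (hb h) hm) (k₀ := k₀) (t := t₀)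
    ((mul_nonpos_of_nonneg_of_nonpos hm h0).trans (Nat.cast_nonneg _))
  classical
  set U := (range D).filter (fun t : ℕ => InAtom (fun k => m * b k) I t) with hU
  have mU : ∀ t, t ∈ U ↔ t < D ∧ InAtom (fun k => m * b k) I t := fun t => by
    rw [hU, mem_filter, mem_range]
  set τ := ⌈(m : ℝ) * b I⌉₊ with hτ
  have hτ1 : (m : ℝ) * b I ≤ τ := Nat.le_ceil _
  have hτ2 : ∀ t ∈ U, τ ≤ t := fun t ht => Nat.ceil_le.2 ((((mU t).1 ht).2 I).1 le_rfl)
  set G : ℚ[X][X] := ∑ t ∈ U, monomial (t - τ) (f t) with hG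
  have hco : ∀ s, G.coeff s ≠ 0 → τ + s ∈ U ∧ G.coeff s = f (τ + s) := fun s hs =>
    design_coeff' hτ2 f hs
  have hG0 : G ≠ 0 := fun h => hf₀ (by
    rw [← design_coeff hτ2 f ((mU t₀).2 ⟨ht₀, hI⟩), ← hG, h, coeff_zero])
  have hdeg : ∀ s, G.coeff s ≠ 0 →
      ((G.coeff s).natDegree : ℝ) + S * s ≤ S * (H * m - τ) - 1 := fun s hs => by
    obtain ⟨h1, h2⟩ := hco s hs
    rw [h2] at hs ⊢
    have h3 := hfd _ hs
    have h4 := ha _ ((mU _).1 h1).1 (by omega)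
    have h5 : ((f (τ + s)).natDegree : ℝ) + 1 ≤ a (τ + s) := by exact_mod_cast h3
    push_cast at h4
    linarith
  have hval : ∀ i s, (taylor (C (if i ∈ J I then c i else 0)) G).coeff s ≠ 0 →
      (if i ∈ J I then (m : ℝ) else m * z I i - r I i * τ) ≤
        (rootMultiplicity (x i) ((taylor (C (if i ∈ J I then c i else 0)) G).coeff s) : ℝ) +
          (if i ∈ J I then 1 else r I i) * s := fun i s hs => by
    by_cases hi : i ∈ J I
    · simp only [if_pos hi] at hs ⊢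
      obtain ⟨e1, e2⟩ := hJ I i hi
      have t0 := (mU t₀).2 ⟨ht₀, hI⟩
      have hin : ∀ t ∈ U, (v i : ℤ) * t - lam t = (v i : ℤ) * t₀ - lam t₀ := fun t ht => by
        refine (hw i t₀ ht₀ t ((mU t).1 ht).1).2 fun k => ?_
        rw [e1, e2]
        rcases le_or_gt k I with h | h
        · exact Or.inl ⟨design_th1 h, (hI k).1 h, (((mU t).1 ht).2 k).1 h⟩
        · exact Or.inr ⟨design_th0 h, (hI k).2 h, (((mU t).1 ht).2 k).2 h⟩
      have hout : ∀ t < D, t ∉ U → (v i : ℤ) * t - lam t < (v i : ℤ) * t₀ - lam t₀ :=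
        fun t ht ht' => by
          refine (hw i t₀ ht₀ t ht).1 ?_
          rw [e1, e2]
          exact resident_lt hI fun h => ht' ((mU t).2 ⟨ht, h⟩)
      have hfil : (range D).filter (fun t : ℕ => (v i : ℤ) * t - lam t = v i * t₀ - lam t₀) = U := by
        ext t
        rw [mem_filter, mem_range]
        refine ⟨fun h => by_contra fun h' => (hout t h.1 h').ne h.2,
          fun h => ⟨((mU t).1 h).1, hin t h⟩⟩
      have key := design_res hτ2 f (hc i) (x i) (m := m) (fun q j hq => by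
        rw [← hfil]
        refine hL i _ q j hq fun t ht h => absurd h (not_lt.2 ?_)
        by_cases h' : t ∈ U
        · exact (hin t h').le
        · exact (hout t ht h').le) hs
      rw [one_mul]
      exact_mod_cast key
    · simp only [if_neg hi, C_0, taylor_zero] at hs ⊢
      obtain ⟨h1, h2⟩ := hco s hs
      rw [h2] at hs ⊢
      obtain ⟨h3, h4⟩ := (mU _).1 h1
      have k1 := design_non (ψ := fun t : ℕ => (v i : ℤ) * t - lam t) h3 f hs (hc i) (x i)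
        (m := m) (hL i _)
      have k2 := entry_card (hθ i).1 (hθ i).2 (hE I i hi) m h4
        (((range D).erase (τ + s)).filter fun u : ℕ =>
          (v i : ℤ) * (τ + s : ℕ) - lam (τ + s) ≤ (v i : ℤ) * u - lam u) fun u hu => by
          obtain ⟨u1, u2⟩ := mem_filter.1 hu
          obtain ⟨u3, u4⟩ := mem_erase.1 u1
          exact ⟨u3, fun h => absurd ((hw i _ h3 u (mem_range.1 u4)).1 h) (not_lt.2 u2)⟩
      have k3 := k2.trans (Nat.cast_le.2 k1)
      push_cast at k3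
      linarith
  have s1 : ∑ i, (if i ∈ J I then (m : ℝ) else m * z I i - r I i * τ) =
      (J I).card * m + (m * ∑ i ∈ (J I)ᶜ, z I i - (∑ i ∈ (J I)ᶜ, r I i) * τ) := by
    rw [design_sum, sum_const, nsmul_eq_mul, sum_sub_distrib, mul_sum, sum_mul]
  have s2 : ∑ i, (if i ∈ J I then (1 : ℝ) else r I i) = (J I).card + ∑ i ∈ (J I)ᶜ, r I i := by
    rw [design_sum, sum_const, nsmul_eq_mul, mul_one]
  have s3 : ∀ y : Fin n → ℝ, ∑ i ∈ (J I)ᶜ, |y i - if i ∈ J I then (1 : ℝ) else r I i| =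
      ∑ i ∈ (J I)ᶜ, |y i - r I i| := fun y =>
    sum_congr rfl fun i hi => by rw [if_neg (mem_compl.1 hi)]
  have s4 : ∑ i ∈ (J I)ᶜ, (if i ∈ J I then (1 : ℝ) else r I i) = ∑ i ∈ (J I)ᶜ, r I i :=
    sum_congr rfl fun i hi => by rw [if_neg (mem_compl.1 hi)]
  have hν : (0 : ℝ) ≤ (J I).card := Nat.cast_nonneg _
  rcases hB I with ⟨b1, b2⟩ | ⟨I', b0, b1, b2, b3, b4⟩
  · have h := leaf_top x _ hx _ _ S _ G hG0 hdeg hval
    rw [s1, s2] at h
    have e : ((J I).card : ℝ) + ∑ i ∈ (J I)ᶜ, r I i - S = 0 := by linarith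
    rw [e, mul_zero] at h
    have e2 : ∑ i ∈ (J I)ᶜ, r I i = S - (J I).card := by linarith
    rw [e2] at h b2
    have p1 := mul_le_mul_of_nonneg_left b2 hm
    have p2 := mul_le_mul_of_nonneg_left hτ1 hν
    nlinarith
  · have h := leaf x c _ hx hc hgen (J I) (fun i hi => if_pos hi) (fun i hi => if_neg hi) _ _
      (fun i hi => if_pos hi) S _ (by rw [s4]; exact b2)
      (fun y => by rw [s3 fun i => (y i : ℝ)]; exact b3 y) G hG0 hdeg hval
    rw [s1, s2] at h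
    have d1 : (τ : ℝ) + G.natDegree ≤ m * b I' := by
      have := (((mU _).1 (hco G.natDegree (leadingCoeff_ne_zero.2 hG0)).1).2 I').2 b0
      exact_mod_cast this
    generalize ∑ i ∈ (J I)ᶜ, r I i = R at *
    generalize ∑ i ∈ (J I)ᶜ, z I i = Z at *
    have p1 := mul_le_mul_of_nonneg_left b4 hm
    have p2 := mul_le_mul_of_nonneg_right d1 (show 0 ≤ (J I).card + R - S by linarith)
    have p3 := mul_nonneg (sub_nonneg.2 hτ1) (sub_nonneg.2 b2)
    nlinarith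

theorem designT {T : Type} [Fintype T] [DecidableEq T] {n N : ℕ} (ν : T → ℕ)
    (hn : ∑ τ, ν τ = n) (b : Fin N → ℝ) (hb : Monotone b) (k₀ : Fin N) (h0 : b k₀ ≤ 0)
    (lv : Fin N → ℕ) (g : T → Fin N) (θ : T → ℝ) (hθ : ∀ τ, 0 < θ τ ∧ θ τ ≤ 1)
    (r z : Fin N → T → ℝ) (res : Fin N → T) (hres : ∀ I, g (res I) = I ∧ θ (res I) = 1)
    (hr0 : ∀ I, r I (res I) = 0 ∧ z I (res I) = 0)
    (hE : ∀ I τ, Entry b lv (g τ) (θ τ) I (r I τ) (z I τ)) (S H : ℝ)
    (hB : ∀ I, Bal b I (∑ τ, ν τ * r I τ - S) (ν (res I))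
      (∑ τ, ν τ * z I τ + ν (res I) - S * H)
      (∃ (τ : T) (e : ℤ) (δ : ℝ), e + δ ≤ r I τ ∧ r I τ + δ ≤ e + 1 ∧ 0 < δ ∧ 1 ≤ ν τ * δ))
    (m D : ℕ) (a : ℕ → ℕ) (ha : ∀ t < D, 0 < a t → (a t : ℝ) ≤ S * (H * m - t)) :
    Good (fun _ : Fin n => m) (tr D a) univ 0 := by
  have hcard : Fintype.card (Σ τ, Fin (ν τ)) = n := by
    rw [Fintype.card_sigma, ← hn]
    exact sum_congr rfl fun τ _ => Fintype.card_fin _
  set ty : Fin n → T := fun i => ((Fintype.equivFinOfCardEq hcard).symm i).1 with hty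
  have hs : ∀ F : T → ℝ, ∑ i, F (ty i) = ∑ τ, ν τ * F τ := fun F => by
    rw [hty, Equiv.sum_comp (Fintype.equivFinOfCardEq hcard).symm fun p => F p.1,
      Fintype.sum_sigma]
    exact sum_congr rfl fun τ _ => by simp
  have hc : ∀ τ, ((univ.filter fun i => ty i = τ).card : ℝ) = ν τ := fun τ => by
    have h := hs fun τ' => if τ' = τ then 1 else 0
    rw [sum_boole] at h
    simpa using h
  have hs' : ∀ (F : T → ℝ) (τ : T), F τ = 0 →
      ∑ i ∈ (univ.filter fun i => ty i = τ)ᶜ, F (ty i) = ∑ τ, ν τ * F τ := fun F τ h => by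
    rw [← hs, ← sum_add_sum_compl (univ.filter fun i => ty i = τ),
      sum_eq_zero (s := univ.filter fun i => ty i = τ), zero_add]
    intro i hi
    rw [(mem_filter.1 hi).2, h]
  refine design b hb k₀ h0 lv (fun i => g (ty i)) (fun i => θ (ty i)) (fun i => hθ _)
    (fun I i => r I (ty i)) (fun I i => z I (ty i)) (fun I => univ.filter fun i => ty i = res I)
    (fun I i hi => ?_) (fun I i _ => hE I _) S H (fun I => ?_) m D a ha
  · rw [(mem_filter.1 hi).2]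
    exact hres I
  · rw [hs' (r I) _ (hr0 I).1, hs' (z I) _ (hr0 I).2, hc]
    rcases hB I with h | ⟨I', b0, b1, b2, ⟨τ, e, δ, c1, c2, c3, c4⟩, b4⟩
    · exact Or.inl h
    refine Or.inr ⟨I', b0, b1, b2, fun y => ?_, b4⟩
    have hne : τ ≠ res I := by
      rintro rfl
      rw [(hr0 I).1] at c1 c2
      have a1 : (e : ℝ) < 0 := by linarith
      have a2 : (0 : ℝ) < e + 1 := by linarith
      have a3 : e < 0 := by exact_mod_cast a1
      have a4 : 0 < e + 1 := by exact_mod_cast a2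
      omega
    refine c4.trans (le_trans ?_ (sum_le_sum_of_subset_of_nonneg
      (s := univ.filter fun i => ty i = τ) (fun i hi => ?_) fun i _ _ => abs_nonneg _))
    · rw [← hc, ← nsmul_eq_mul]
      refine card_nsmul_le_sum _ _ _ fun i hi => ?_
      rw [(mem_filter.1 hi).2]
      rcases le_or_gt (y i) e with h | h
      · have : (y i : ℝ) ≤ e := by exact_mod_cast h
        exact le_abs.2 (Or.inr (by linarith))
      · have : (e : ℝ) + 1 ≤ y i := by exact_mod_cast h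
        exact le_abs.2 (Or.inl (by linarith))
    · rw [mem_compl, mem_filter, (mem_filter.1 hi).2]
      exact fun h => hne h.2

end Pool.Agent.Lib.MP_6e81d8_ag.H93
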