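import Mathlib

/-!
Semistability of symmetric powers in rank two, in the language of Gauss norms.
-/

set_option autoImplicit false

namespace Pool.Agent.Lib.MP_6e81d8_ag.H93

open Polynomial Finset

theorem gauss_sum_le {R β : Type} [CommRing R] (v : AbsoluteValue R ℝ) (hv : IsNonarchimedean v)
    (s : Finset β) (f : β → R) {B : ℝ} (hB : 0 ≤ B) (h : ∀ x ∈ s, v (f x) ≤ B) :
    v (∑ x ∈ s, f x) ≤ B := by
  classical
  induction s using Finset.induction_on with
  | empty => simpa using hB
  | insert a s ha ih =>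
    rw [Finset.sum_insert ha]
    exact (hv _ _).trans (max_le (h a (mem_insert_self a s))
      (ih fun x hx => h x (mem_insert_of_mem hx)))

theorem gauss_int_le {R : Type} [CommRing R] (v : AbsoluteValue R ℝ) (hv : IsNonarchimedean v)
    (z : ℤ) (x : R) : v ((z : R) * x) ≤ v x := by
  rcases subsingleton_or_nontrivial R with hR | hR
  · rw [Subsingleton.elim ((z : R) * x) x]
  · rw [map_mul]
    exact mul_le_of_le_one_left (v.nonneg x) (IsNonarchimedean.apply_intCast_le_one hv)

theorem det_le {R n : Type} [CommRing R] [Fintype n] [DecidableEq n] (v : AbsoluteValue R ℝ)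
    (hv : IsNonarchimedean v) (M : Matrix n n R) (a b : n → ℝ) (ha : ∀ i, 0 ≤ a i)
    (hb : ∀ j, 0 ≤ b j) (h : ∀ i j, v (M i j) ≤ a i * b j) :
    v M.det ≤ (∏ i, a i) * ∏ j, b j := by
  have hB : 0 ≤ (∏ i, a i) * ∏ j, b j :=
    mul_nonneg (prod_nonneg fun i _ => ha i) (prod_nonneg fun j _ => hb j)
  rcases subsingleton_or_nontrivial R with hR | hR
  · rw [Subsingleton.elim M.det 0, map_zero]
    exact hB
  rw [Matrix.det_apply']
  refine gauss_sum_le v hv _ _ hB fun σ _ => (gauss_int_le v hv _ _).trans ?_
  rw [map_prod, ← Equiv.prod_comp σ a, ← prod_mul_distrib]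
  exact prod_le_prod (fun i _ => v.nonneg _) fun i _ => h _ _

/-- The discriminant, written as a resultant of two forms of degree `k - 1`. -/
noncomputable def disc {R : Type} [CommRing R] (P : R[X]) : R :=
  resultant (derivative P) (C (P.natDegree : R) * P - X * derivative P)
    (P.natDegree - 1) (P.natDegree - 1)

theorem gauss_coeff_Q {R : Type} [CommRing R] (P : R[X]) (k t : ℕ) :
    (C (k : R) * P - X * derivative P).coeff t = (((k : ℤ) - t : ℤ) : R) * P.coeff t := by
  rw [coeff_sub, coeff_C_mul]
  cases t with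
  | zero => simp
  | succ t =>
    rw [coeff_X_mul, coeff_derivative]
    push_cast
    ring

theorem gauss_natDegree_Q {R : Type} [CommRing R] (P : R[X]) :
    (C (P.natDegree : R) * P - X * derivative P).natDegree ≤ P.natDegree - 1 := by
  rw [natDegree_le_iff_coeff_eq_zero]
  intro t ht
  rw [gauss_coeff_Q]
  rcases (show P.natDegree ≤ t by omega).eq_or_lt with h | h
  · simp [← h]
  · rw [coeff_eq_zero_of_natDegree_lt h, mul_zero]

theorem gauss_disc_eq {R : Type} [CommRing R] {f g : R[X]} {l : ℕ} (hf : f.natDegree = l)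
    (hg : g.natDegree ≤ l) :
    resultant f g l l = f.leadingCoeff ^ (l - g.natDegree) * resultant f g := by
  subst hf
  have := resultant_add_right_deg f g f.natDegree g.natDegree (f.natDegree - g.natDegree) le_rfl
  rw [Nat.add_sub_cancel' hg] at this
  exact this

theorem disc_taylor {R : Type} [CommRing R] [IsDomain R] [CharZero R] (P : R[X]) (c : R) :
    disc (taylor c P) = disc P := by
  have h1 : derivative (taylor c P) = taylor c (derivative P) := by
    rw [taylor_apply, taylor_apply, derivative_comp]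
    simp
  have h2 : C (P.natDegree : R) * taylor c P - X * taylor c (derivative P) =
      taylor c (C (P.natDegree : R) * P - X * derivative P) + taylor c (derivative P) * C c := by
    rw [map_sub, taylor_mul, taylor_mul, taylor_C, taylor_X]
    ring
  have h3 : (derivative P).natDegree = P.natDegree - 1 := natDegree_derivative P
  have h4 := gauss_natDegree_Q P
  unfold disc
  rw [natDegree_taylor, h1, h2, resultant_add_mul_right _ _ _ _ _ (by simp)
    (by rw [natDegree_taylor, h3]),
    gauss_disc_eq (by rw [natDegree_taylor, h3]) (by rwa [natDegree_taylor]),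
    gauss_disc_eq h3 h4, resultant_taylor, leadingCoeff_taylor, natDegree_taylor]

theorem gauss_exp (l : ℕ) : ∑ i ∈ range l, i + ∑ i ∈ range l, i + l * (l + 1) =
    ∑ i ∈ range (l + l), i + l := by
  have h1 := Finset.sum_range_id_mul_two l
  have h2 := Finset.sum_range_id_mul_two (l + l)
  cases l with
  | zero => simp
  | succ l =>
    rw [Nat.add_sub_cancel] at h1
    rw [show l + 1 + (l + 1) - 1 = 2 * l + 1 by omega] at h2
    nlinarith

theorem disc_le {R : Type} [CommRing R] (v : AbsoluteValue R ℝ) (hv : IsNonarchimedean v)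
    {ρ : ℝ} (hρ : 0 < ρ) (P : R[X]) :
    v (disc P) * ρ ^ (P.natDegree * (P.natDegree - 1)) ≤
      gaussNorm v ρ P ^ (2 * (P.natDegree - 1)) := by
  obtain ⟨l, hl⟩ : ∃ l, l = P.natDegree - 1 := ⟨_, rfl⟩
  have hk : P.natDegree * (P.natDegree - 1) = l * (l + 1) := by
    rcases Nat.eq_zero_or_pos P.natDegree with h | h
    · simp [hl, h]
    · rw [← hl, show P.natDegree = l + 1 by omega, mul_comm]
  unfold disc
  rw [hk, ← hl]
  set N := gaussNorm v ρ P with hN
  have hN0 : 0 ≤ N := gaussNorm_nonneg v P hρ.le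
  have hc : ∀ t, v (P.coeff t) ≤ N / ρ ^ t := fun t =>
    (le_div_iff₀ (pow_pos hρ t)).mpr (le_gaussNorm v P hρ.le t)
  let b : Fin (l + l) → ℝ := fun j =>
    j.addCases (fun j₁ => N * ρ ^ (j₁ : ℕ)) (fun j₁ => N * ρ ^ (j₁ : ℕ) / ρ)
  have hb : ∀ j, 0 ≤ b j := by
    intro j
    induction j using Fin.addCases with
    | left j => simp only [b, Fin.addCases_left]; positivity
    | right j => simp only [b, Fin.addCases_right]; positivity
  have hdet := det_le v hv
    (sylvester (derivative P) (C (P.natDegree : R) * P - X * derivative P) l l)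
    (fun i => (ρ ^ (i : ℕ))⁻¹) b (fun i => by positivity) hb (by
      intro i j
      induction j using Fin.addCases with
      | left j =>
        simp only [sylvester, Matrix.of_apply, b, Fin.addCases_left]
        split_ifs with hij
        · rw [gauss_coeff_Q]
          refine (gauss_int_le v hv _ _).trans ((hc _).trans (le_of_eq ?_))
          rw [pow_sub₀ ρ hρ.ne' hij.1]
          field_simp
        · rw [map_zero]; positivity
      | right j =>
        simp only [sylvester, Matrix.of_apply, b, Fin.addCases_right]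
        split_ifs with hij
        · rw [coeff_derivative, mul_comm]
          have h1 := gauss_int_le v hv ((((i : ℕ) - j : ℕ) : ℤ) + 1) (P.coeff ((i : ℕ) - j + 1))
          rw [Int.cast_add, Int.cast_natCast, Int.cast_one] at h1
          refine h1.trans ((hc _).trans (le_of_eq ?_))
          rw [pow_succ, pow_sub₀ ρ hρ.ne' hij.1]
          field_simp
        · rw [map_zero]; positivity)
  refine (mul_le_mul_of_nonneg_right hdet (pow_pos hρ _).le).trans (le_of_eq ?_)
  rw [Fin.prod_univ_add b]
  simp only [b, Fin.addCases_left, Fin.addCases_right, prod_inv_distrib, prod_div_distrib,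
    prod_mul_distrib, prod_const, card_univ, Fintype.card_fin, prod_pow_eq_pow_sum]
  rw [Fin.sum_univ_eq_sum_range (fun i => i) l, Fin.sum_univ_eq_sum_range (fun i => i) (l + l)]
  have h1 := congrArg (fun e => ρ ^ e) (gauss_exp l)
  simp only [pow_add] at h1
  generalize ∑ i ∈ range l, i = A at *
  generalize ∑ i ∈ range (l + l), i = B at *
  have h2 : ρ ^ B ≠ 0 := (pow_pos hρ _).ne'
  have h3 : ρ ^ l ≠ 0 := (pow_pos hρ _).ne'
  rw [two_mul, pow_add]
  field_simp
  linear_combination (N ^ l) ^ 2 * h1

theorem gauss_disc_map {R S : Type} [CommRing R] [CommRing S] (φ : R →+* S)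
    (hφ : Function.Injective φ) (P : R[X]) : disc (P.map φ) = φ (disc P) := by
  unfold disc
  rw [natDegree_map_eq_of_injective hφ, derivative_map, ← resultant_map_map, Polynomial.map_sub,
    Polynomial.map_mul, Polynomial.map_mul, map_X, map_C φ, map_natCast φ]

theorem gauss_disc_field {L : Type} [Field L] [CharZero L] (P : L[X]) (hP : Irreducible P)
    (hk : 1 ≤ P.natDegree) : disc P ≠ 0 := by
  have h3 : (derivative P).natDegree = P.natDegree - 1 := natDegree_derivative P
  have h1 : IsCoprime P (derivative P) := hP.separable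
  have hu : IsUnit (C (P.natDegree : L)) :=
    isUnit_C.mpr (IsUnit.mk0 _ (Nat.cast_ne_zero.mpr (by omega)))
  have h2 : IsCoprime (derivative P) (C (P.natDegree : L) * P - X * derivative P) := by
    have h4 := ((isCoprime_mul_unit_left_right hu _ _).mpr h1.symm).add_mul_right_right (-X)
    rwa [neg_mul, ← sub_eq_add_neg] at h4
  unfold disc
  rw [gauss_disc_eq h3 (gauss_natDegree_Q P)]
  refine mul_ne_zero (pow_ne_zero _ (leadingCoeff_ne_zero.mpr fun h => ?_))
    (resultant_ne_zero _ _ h2)
  have := derivative_eq_zero.mp h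
  omega

theorem disc_ne_zero {K : Type} [Field K] [CharZero K] (P : K[X][X]) (hP : Irreducible P)
    (hk : 1 ≤ P.natDegree) : disc P ≠ 0 := by
  have hφ : Function.Injective (algebraMap K[X] (FractionRing K[X])) := IsFractionRing.injective _ _
  have : CharZero (FractionRing K[X]) := charZero_of_injective_ringHom hφ
  have h1 : Irreducible (P.map (algebraMap K[X] (FractionRing K[X]))) :=
    ((hP.isPrimitive (by omega)).irreducible_iff_irreducible_map_fraction_map).mp hP
  have h2 := gauss_disc_field _ h1 (by rwa [natDegree_map_eq_of_injective hφ])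
  rw [gauss_disc_map _ hφ] at h2
  exact fun h => h2 (by rw [h, map_zero])

theorem semistable {K π : Type} [Field K] [CharZero K] [Fintype π]
    (v : π → AbsoluteValue K[X] ℝ) (hv : ∀ p, IsNonarchimedean (v p))
    (hprod : ∀ f : K[X], f ≠ 0 → 1 ≤ ∏ p, v p f) (ρ : π → ℝ) (hρ : ∀ p, 0 < ρ p) (c : π → K[X])
    (h1 : ∀ P : K[X][X], Irreducible P → P.natDegree = 1 →
      ∏ p, ρ p ≤ (∏ p, gaussNorm (v p) (ρ p) (taylor (c p) P)) ^ 2)
    (G : K[X][X]) (hG : G ≠ 0) :
    (∏ p, ρ p) ^ G.natDegree ≤ (∏ p, gaussNorm (v p) (ρ p) (taylor (c p) G)) ^ 2 := by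
  have hρ0 : 0 ≤ ∏ p, ρ p := prod_nonneg fun p _ => (hρ p).le
  have h0 : ∀ P : K[X][X], P ≠ 0 → P.natDegree = 0 →
      (∏ p, ρ p) ^ P.natDegree ≤ (∏ p, gaussNorm (v p) (ρ p) (taylor (c p) P)) ^ 2 := by
    intro P hP hd
    rw [hd, pow_zero, eq_C_of_natDegree_eq_zero hd]
    simp only [taylor_C, gaussNorm_C]
    refine one_le_pow₀ (hprod _ fun h => hP ?_)
    rw [eq_C_of_natDegree_eq_zero hd, h, map_zero]
  have hirr : ∀ P : K[X][X], Irreducible P →
      (∏ p, ρ p) ^ P.natDegree ≤ (∏ p, gaussNorm (v p) (ρ p) (taylor (c p) P)) ^ 2 := by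
    intro P hP
    rcases Nat.lt_trichotomy P.natDegree 1 with h | h | h
    · exact h0 P hP.ne_zero (by omega)
    · rw [h, pow_one]
      exact h1 P hP h
    · have h2 := hprod _ (disc_ne_zero P hP h.le)
      have h3 : ∏ p, v p (disc P) * ρ p ^ (P.natDegree * (P.natDegree - 1)) ≤
          ∏ p, gaussNorm (v p) (ρ p) (taylor (c p) P) ^ (2 * (P.natDegree - 1)) := by
        refine prod_le_prod (fun p _ => mul_nonneg ((v p).nonneg _) (pow_pos (hρ p) _).le)
          fun p _ => ?_
        have := disc_le (v p) (hv p) (hρ p) (taylor (c p) P)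
        rwa [disc_taylor, natDegree_taylor] at this
      rw [prod_mul_distrib, prod_pow, prod_pow, pow_mul, pow_mul] at h3
      have h4 := le_mul_of_one_le_left (pow_nonneg (pow_nonneg hρ0 P.natDegree)
        (P.natDegree - 1)) h2
      exact (pow_le_pow_iff_left₀ (pow_nonneg hρ0 _) (sq_nonneg _) (by omega)).mp (h4.trans h3)
  induction G using WfDvdMonoid.induction_on_irreducible with
  | zero => exact absurd rfl hG
  | unit u hu => exact h0 u hG (natDegree_eq_zero_of_isUnit hu)
  | mul a i ha hi ih =>
    rw [natDegree_mul hi.ne_zero ha, pow_add]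
    simp only [taylor_mul]
    rw [prod_congr rfl fun p _ => gaussNorm_mul (hv p) (hρ p) _ _, prod_mul_distrib, mul_pow]
    exact mul_le_mul (hirr i hi) (ih ha) (pow_nonneg hρ0 _) (sq_nonneg _)

end Pool.Agent.Lib.MP_6e81d8_ag.H93
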