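import Pool.Agent.Lib.MP_6e81d8_ag.H93.Num

/-!
Emptiness of linear systems whose degree is below the square root bound.
-/

set_option autoImplicit false

namespace Pool.Agent.Lib.MP_6e81d8_ag.H93

open Finset Polynomial H16

theorem ell_le' (s e t : ℕ) : ell s e e t ≤ s * (e - t * s) := by
  refine (sz_mono (min_le_left _ _) le_rfl).trans ?_
  have : s * (e - t * s) = ∑ _a ∈ range s, (e - t * s) := by simp
  rw [this]
  exact sum_le_sum fun a _ => Nat.sub_le _ _

theorem bd_sqrt {n m e : ℕ} (hn : 10 ^ 13 ≤ n) (he : (e : ℝ) ≤ √n * m) :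
    Bd (fun _ : Fin n => m) (Dsp e e) univ 0 := by
  obtain ⟨s, hs1, hs⟩ := exists_design hn
  have h3 : e ≤ e * s := Nat.le_mul_of_pos_right _ hs1
  have hG := hs m e (ell s e e) fun t _ h0 => by
    have h1 := ell_le' s e t
    have h2 : t * s ≤ e := by
      by_contra h
      rw [Nat.sub_eq_zero_of_le (not_le.mp h).le] at h1
      omega
    have h4 : (ell s e e t : ℝ) ≤ s * (e - t * s : ℕ) := by exact_mod_cast h1
    rw [Nat.cast_sub h2, Nat.cast_mul] at h4
    exact h4.trans (mul_le_mul_of_nonneg_left (by linarith) (Nat.cast_nonneg s))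
  rw [show tr e (ell s e e) = ell s e e from funext fun b => by
    unfold tr
    split_ifs with h
    · rfl
    · exact (ell_zero h3 (not_lt.mp h)).symm] at hG
  exact bd_sh (X ^ s) (grade _ _ (row_mem hs1) (hG.rows _ (fun _ => inferInstance)
    (fun b => (finrank_supp _).trans (card_Tc _ _ _)) e fun b hb => ell_zero h3 hb))

theorem nagata {n d : ℕ} (m : Fin n → ℕ) (hn : 10 ^ 13 ≤ n)
    (h : √n * d < ∑ i, (m i : ℝ)) :
    ∃ F : MvPolynomial (Fin n × Fin 2) ℂ, F ≠ 0 ∧ ∀ p : Fin n → Fin 2 → ℂ,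
      MvPolynomial.eval (fun ij : Fin n × Fin 2 => p ij.1 ij.2) F ≠ 0 → Sys d m p = ⊥ := by
  have : NeZero n := ⟨by omega⟩
  let e := (Bivariate.equivMvPolynomial ℂ).symm
  have hr : √(n : ℝ) * √n = n := Real.mul_self_sqrt n.cast_nonneg
  have hr0 : 0 < √(n : ℝ) := Real.sqrt_pos.mpr (by exact_mod_cast (by omega : 0 < n))
  have h' : (n : ℝ) * d < √n * ∑ i, (m i : ℝ) := by
    have := mul_lt_mul_of_pos_left h hr0
    rwa [← mul_assoc, hr] at this
  obtain ⟨k, hk⟩ := exists_nat_ge (1 / (√n * ∑ i, (m i : ℝ) - n * d))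
  rw [div_le_iff₀ (by linarith)] at hk
  have hk' : ((k * (n * d) + 1 : ℕ) : ℝ) ≤ √n * ((∑ i, m i) * k : ℕ) := by
    push_cast
    linarith
  obtain ⟨p, Ψ, hp⟩ := bd_sqrt hn hk'
  have hB : Bd m ((MvPolynomial.restrictTotalDegree (Fin 2) ℂ d).map e.toLinearMap) univ 0 := by
    by_contra hc
    have h1 : ∀ j : Fin n, ∃ f : MvPolynomial (Fin 2) ℂ, f.totalDegree ≤ d ∧
        (∀ i, Van (m i) (p (i + j)) (e f)) ∧ f ≠ 0 := by
      intro j
      by_contra h2
      refine hc ⟨fun i => p (i + j), 0, ?_⟩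
      rintro _ ⟨f, hf, rfl⟩ hV -
      by_contra h3
      exact h2 ⟨f, (MvPolynomial.mem_restrictTotalDegree _ _ _).mp hf, fun i => hV i (mem_univ i),
        fun h4 => h3 (by rw [h4, map_zero])⟩
    choose f f1 f2 f3 using h1
    have h2 := hp (e ((∏ j, f j) ^ k)) (symm_mem_Dsp (d := k * (n * d)) ?_) (fun l _ => ?_)
      (Subsingleton.elim _ _)
    · exact pow_ne_zero k (prod_ne_zero_iff.mpr fun j _ => f3 j)
        ((map_eq_zero_iff e e.injective).mp h2)
    · rw [MvPolynomial.mem_restrictTotalDegree]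
      refine (MvPolynomial.totalDegree_pow _ _).trans (Nat.mul_le_mul_left _ ?_)
      refine (MvPolynomial.totalDegree_finsetProd _ _).trans ?_
      exact (sum_le_sum fun j _ => f1 j).trans (by simp)
    · have h3 : (∏ j, mx (p l) ^ m (l - j)) ^ k = mx (p l) ^ ((∑ i, m i) * k) := by
        rw [← Equiv.sum_comp (Equiv.subLeft l)]
        exact (congrArg (· ^ k) (prod_pow_eq_pow_sum _ _ _)).trans (pow_mul _ _ _).symm
      rw [Van, map_pow, map_prod, ← h3]
      refine Ideal.pow_mem_pow (Ideal.prod_mem_prod fun j _ => ?_) _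
      simpa [Van] using f2 j (l - j)
  obtain ⟨Δ, hΔ, Φ, h1⟩ := hB.generic
  refine ⟨Δ, hΔ, fun q hq => eq_bot_iff.mpr fun f hf => ?_⟩
  refine (map_eq_zero_iff e e.injective).mp
    (h1 _ hq (e f) ⟨f, hf.1, rfl⟩ (fun i _ => ?_) (Subsingleton.elim _ _))
  have h4 := hf.2
  simp only [Submodule.coe_iInf, Set.mem_iInter, SetLike.mem_coe] at h4
  refine pow_map (e : MvPolynomial (Fin 2) ℂ →+* R) (fun x hx => ?_) (h4 i)
  have h5 : (ev (q i 0, q i 1)).comp e.toAlgHom = MvPolynomial.aeval (q i) := by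
    refine MvPolynomial.algHom_ext fun j => ?_
    fin_cases j <;> simp [e]
  rw [mem_mx]
  exact (DFunLike.congr_fun h5 x).trans hx

end Pool.Agent.Lib.MP_6e81d8_ag.H93
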