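import Pool.Agent.Lib.MP_6e81d8_ag.H93.Core

/-!
An exact design with six atoms and twelve types of points.
-/

set_option autoImplicit false
set_option linter.unusedSimpArgs false

namespace Pool.Agent.Lib.MP_6e81d8_ag.H93

open Polynomial Finset H16

theorem two {A B : ℝ} (hA : 0 < A) (hB : 0 < B) :
    ∃ θ p q, Two θ p q ∧ p * A = -(A + B) ∧ q * B = A + B := by
  have h : 0 < A + B := by linarith
  refine ⟨B / (A + B), -(A + B) / A, (A + B) / B, ⟨by positivity, ?_, ?_, ?_⟩, ?_, ?_⟩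
  · rw [div_lt_one h]
    linarith
  · field_simp
    ring
  · field_simp
  · field_simp
  · field_simp

theorem quot_bd {p A t lo hi : ℝ} (h : p * A = t) (hA : 0 < A) (h1 : lo * A ≤ t)
    (h2 : t ≤ hi * A) : lo ≤ p ∧ p ≤ hi :=
  ⟨le_of_mul_le_mul_right (h ▸ h1) hA, le_of_mul_le_mul_right (h ▸ h2) hA⟩

theorem pbP {K a p lo hi c d : ℝ} (hK : 0 ≤ K) (h0 : 0 ≤ lo) (hc : 0 ≤ c)
    (h1 : lo * K ≤ a ∧ a ≤ hi * K) (h2 : c ≤ p ∧ p ≤ d) :
    lo * K * c ≤ a * p ∧ a * p ≤ hi * K * d := by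
  have h3 : 0 ≤ a := (mul_nonneg h0 hK).trans h1.1
  exact ⟨mul_le_mul h1.1 h2.1 hc h3, mul_le_mul h1.2 h2.2 (hc.trans h2.1) (h3.trans h1.2)⟩

theorem pbN {K a p lo hi c d : ℝ} (hK : 0 ≤ K) (h0 : 0 ≤ lo) (hd : d ≤ 0)
    (h1 : lo * K ≤ a ∧ a ≤ hi * K) (h2 : c ≤ p ∧ p ≤ d) :
    hi * K * c ≤ a * p ∧ a * p ≤ lo * K * d := by
  have := pbP (p := -p) (c := -d) (d := -c) hK h0 (by linarith) h1 ⟨by linarith, by linarith⟩
  constructor <;> linarith [this.1, this.2]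

theorem nat_of_int (z : ℤ) (h : (0 : ℝ) ≤ z) : ∃ ν : ℕ, (ν : ℝ) = z := by
  obtain ⟨ν, rfl⟩ := Int.eq_ofNat_of_zero_le (show 0 ≤ z by exact_mod_cast h)
  exact ⟨ν, by simp⟩

theorem window {n K : ℕ} {H : ℝ} (hn : (n : ℝ) = 49 * K * H ^ 2) (h1 : 2.536333 ≤ H)
    (h2 : H ≤ 2.536348) (hK : (1e10 : ℝ) ≤ K) (m D : ℕ) (a : ℕ → ℕ)
    (ha : ∀ t < D, 0 < a t → (a t : ℝ) ≤ 49 * K * (H * m - t)) :
    Good (fun _ : Fin n => m) (tr D a) univ 0 := by
  have hK0 : (0 : ℝ) ≤ K := by linarith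
  have hN : 315.2162 * K ≤ (n : ℝ) ∧ (n : ℝ) ≤ 315.22 * K := by
    have := pbP (K := K) (a := 49 * K) (p := H ^ 2) (lo := 49) (hi := 49) (c := 2.536333 ^ 2)
      (d := 2.536348 ^ 2) hK0 (by norm_num) (by norm_num) ⟨le_rfl, le_rfl⟩
      ⟨by gcongr, by gcongr⟩
    constructor <;> linarith only [this.1, this.2, hn, hK0]
  obtain ⟨T, hT1, hT2⟩ : ∃ T : ℤ, (T : ℝ) ≤ 0.54 * n + 0.06722 * K ∧ 0.54 * n + 0.06722 * K ≤ (T : ℝ) + 1 :=
    ⟨_, Int.floor_le _, (Int.lt_floor_add_one _).le⟩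
  obtain ⟨n0, e0⟩ := nat_of_int (147 * K) 
    (by push_cast; linarith only [hN.1, hN.2, hT1, hT2, hK])
  obtain ⟨n1, e1⟩ := nat_of_int (1999 * n - 4298 * K - 3675 * T) 
    (by push_cast; linarith only [hN.1, hN.2, hT1, hT2, hK])
  obtain ⟨n2, e2⟩ := nat_of_int (120 * n + 668 * K - 226 * T) 
    (by push_cast; linarith only [hN.1, hN.2, hT1, hT2, hK])
  obtain ⟨n3, e3⟩ := nat_of_int (4 * K) 
    (by push_cast; linarith only [hN.1, hN.2, hT1, hT2, hK])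
  obtain ⟨n4, e4⟩ := nat_of_int (1379 * n - 1953 * K - 2541 * T) 
    (by push_cast; linarith only [hN.1, hN.2, hT1, hT2, hK])
  obtain ⟨n6, e6⟩ := nat_of_int (7 * K) 
    (by push_cast; linarith only [hN.1, hN.2, hT1, hT2, hK])
  obtain ⟨n7, e7⟩ := nat_of_int (-2612 * n + 5642 * K + 4802 * T) 
    (by push_cast; linarith only [hN.1, hN.2, hT1, hT2, hK])
  obtain ⟨n8, e8⟩ := nat_of_int (799 * n - 1519 * K - 1470 * T) 
    (by push_cast; linarith only [hN.1, hN.2, hT1, hT2, hK])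
  obtain ⟨n9, e9⟩ := nat_of_int (881 * n + 8372 * K - 1680 * T) 
    (by push_cast; linarith only [hN.1, hN.2, hT1, hT2, hK])
  obtain ⟨n10, e10⟩ := nat_of_int (-2953 * n - 3682 * K + 5488 * T) 
    (by push_cast; linarith only [hN.1, hN.2, hT1, hT2, hK])
  obtain ⟨n11, e11⟩ := nat_of_int (388 * n - 3437 * K - 698 * T) 
    (by push_cast; linarith only [hN.1, hN.2, hT1, hT2, hK])
  push_cast at e0 e1 e2 e3 e4 e6 e7 e8 e9 e10 e11
  have B0 : 147 * K ≤ (n0 : ℝ) ∧ (n0 : ℝ) ≤ 147 * K := by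
    constructor <;> linarith only [hN.1, hN.2, hT1, hT2, hK, e0]
  have B1 : 25.6013 * K ≤ (n1 : ℝ) ∧ (n1 : ℝ) ≤ 25.6566 * K := by
    constructor <;> linarith only [hN.1, hN.2, hT1, hT2, hK, e1]
  have B2 : 9.7594 * K ≤ (n2 : ℝ) ∧ (n2 : ℝ) ≤ 9.7673 * K := by
    constructor <;> linarith only [hN.1, hN.2, hT1, hT2, hK, e2]
  have B3 : 3.9999 * K ≤ (n3 : ℝ) ∧ (n3 : ℝ) ≤ 4.0001 * K := by
    constructor <;> linarith only [hN.1, hN.2, hT1, hT2, hK, e3]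
  have B4 : 38.5771 * K ≤ (n4 : ℝ) ∧ (n4 : ℝ) ≤ 38.6032 * K := by
    constructor <;> linarith only [hN.1, hN.2, hT1, hT2, hK, e4]
  have B6 : 7 * K ≤ (n6 : ℝ) ∧ (n6 : ℝ) ≤ 7 * K := by
    constructor <;> linarith only [hN.1, hN.2, hT1, hT2, hK, e6]
  have B7 : 0.828 * K ≤ (n7 : ℝ) ∧ (n7 : ℝ) ≤ 0.9 * K := by
    constructor <;> linarith only [hN.1, hN.2, hT1, hT2, hK, e7]
  have B8 : 21.3108 * K ≤ (n8 : ℝ) ∧ (n8 : ℝ) ≤ 21.3307 * K := by
    constructor <;> linarith only [hN.1, hN.2, hT1, hT2, hK, e8]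
  have B9 : 0.3063 * K ≤ (n9 : ℝ) ∧ (n9 : ℝ) ≤ 0.406 * K := by
    constructor <;> linarith only [hN.1, hN.2, hT1, hT2, hK, e9]
  have B10 : 2.9777 * K ≤ (n10 : ℝ) ∧ (n10 : ℝ) ≤ 3.0178 * K := by
    constructor <;> linarith only [hN.1, hN.2, hT1, hT2, hK, e10]
  have B11 : 8.6759 * K ≤ (n11 : ℝ) ∧ (n11 : ℝ) ≤ 8.7181 * K := by
    constructor <;> linarith only [hN.1, hN.2, hT1, hT2, hK, e11]
  obtain ⟨θ1, p1, q1, t1, hp1, hq1⟩ := two (A := H - 2) (B := 74 - 29 * H)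
    (by linarith only [h1, h2]) (by linarith only [h1, h2])
  have P1 : -1.83222 ≤ p1 ∧ p1 ≤ -1.83137 := quot_bd hp1 (by linarith only [h1, h2])
    (by linarith only [h1, h2]) (by linarith only [h1, h2])
  have Q1 : 2.20161 ≤ q1 ∧ q1 ≤ 2.20283 := quot_bd hq1 (by linarith only [h1, h2])
    (by linarith only [h1, h2]) (by linarith only [h1, h2])
  obtain ⟨θ2, p2, q2, t2, hp2, hq2⟩ := two (A := 74 - 29 * H) (B := 28 * H - 71)
    (by linarith only [h1, h2]) (by linarith only [h1, h2])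
  have P2 : -1.0398 ≤ p2 ∧ p2 ≤ -1.03881 := quot_bd hp2 (by linarith only [h1, h2])
    (by linarith only [h1, h2]) (by linarith only [h1, h2])
  have Q2 : 26.13007 ≤ q2 ∧ q2 ≤ 26.76444 := quot_bd hq2 (by linarith only [h1, h2])
    (by linarith only [h1, h2]) (by linarith only [h1, h2])
  obtain ⟨θ3, p3, q3, t3, hp3, hq3⟩ := two (A := 74 - 29 * H) (B := 105 * H - 266)
    (by linarith only [h1, h2]) (by linarith only [h1, h2])
  have P3 : -1.70988 ≤ p3 ∧ p3 ≤ -1.70565 := quot_bd hp3 (by linarith only [h1, h2])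
    (by linarith only [h1, h2]) (by linarith only [h1, h2])
  have Q3 : 2.40869 ≤ q3 ∧ q3 ≤ 2.41712 := quot_bd hq3 (by linarith only [h1, h2])
    (by linarith only [h1, h2]) (by linarith only [h1, h2])
  obtain ⟨θ4, p4, q4, t4, hp4, hq4⟩ := two (A := 105 * H - 266) (B := 193 - 76 * H)
    (by linarith only [h1, h2]) (by linarith only [h1, h2])
  have P4 : -1.75784 ≤ p4 ∧ p4 ≤ -1.75046 := quot_bd hp4 (by linarith only [h1, h2])
    (by linarith only [h1, h2]) (by linarith only [h1, h2])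
  have Q4 : 2.31954 ≤ q4 ∧ q4 ≤ 2.33251 := quot_bd hq4 (by linarith only [h1, h2])
    (by linarith only [h1, h2]) (by linarith only [h1, h2])
  obtain ⟨θ5, p5, q5, t5, hp5, hq5⟩ := two (A := 77 * H - 195) (B := 193 - 76 * H)
    (by linarith only [h1, h2]) (by linarith only [h1, h2])
  have P5 : -1.80195 ≤ p5 ∧ p5 ≤ -1.79503 := quot_bd hp5 (by linarith only [h1, h2])
    (by linarith only [h1, h2]) (by linarith only [h1, h2])
  have Q5 : 2.24696 ≤ q5 ∧ q5 ≤ 2.25782 := quot_bd hq5 (by linarith only [h1, h2])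
    (by linarith only [h1, h2]) (by linarith only [h1, h2])
  obtain ⟨θ6, p6, q6, t6, hp6, hq6⟩ := two (A := 28 * H - 71) (B := 77 * H - 195)
    (by linarith only [h1, h2]) (by linarith only [h1, h2])
  have P6 : -18.18085 ≤ p6 ∧ p6 ≤ -17.83926 := quot_bd hp6 (by linarith only [h1, h2])
    (by linarith only [h1, h2]) (by linarith only [h1, h2])
  have Q6 : 1.0582 ≤ q6 ∧ q6 ≤ 1.05939 := quot_bd hq6 (by linarith only [h1, h2])
    (by linarith only [h1, h2]) (by linarith only [h1, h2])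
  have M1 := pbN hK0 (by norm_num) (by norm_num) B6 P1
  have N1 := pbP hK0 (by norm_num) (by norm_num) B6 Q1
  have M2 := pbN hK0 (by norm_num) (by norm_num) B7 P2
  have N2 := pbP hK0 (by norm_num) (by norm_num) B7 Q2
  have M3 := pbN hK0 (by norm_num) (by norm_num) B8 P3
  have N3 := pbP hK0 (by norm_num) (by norm_num) B8 Q3
  have M4 := pbN hK0 (by norm_num) (by norm_num) B9 P4
  have N4 := pbP hK0 (by norm_num) (by norm_num) B9 Q4
  have M5 := pbN hK0 (by norm_num) (by norm_num) B10 P5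
  have N5 := pbP hK0 (by norm_num) (by norm_num) B10 Q5
  have M6 := pbN hK0 (by norm_num) (by norm_num) B11 P6
  have N6 := pbP hK0 (by norm_num) (by norm_num) B11 Q6
  have hP : 0 < 105 * H - 266 := by linarith only [h1]
  refine core n0 n1 n2 n3 n4 (49 * K) n6 n7 n8 n9 n10 n11 ?_ (49 * K) H (72 - 28 * H)
    (77 * H - 194) (by linarith only [h1]) (by linarith only [h2]) (by linarith only [h1])
    (by linarith only [h1]) (by linarith only [h2])
    θ1 θ2 θ3 θ4 θ5 θ6 p1 p2 p3 p4 p5 p6 q1 q2 q3 q4 q5 q6 t1 t2 t3 t4 t5 t6 (by push_cast; rfl)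
    _ _ _ _ _ 0.1 rfl rfl rfl rfl rfl ?_ ?_ ?_ ?_ ?_ ?_ ?_ ?_ ?_ ?_ ?_ ?_ ?_ ?_ ?_ (by norm_num)
    ⟨by linarith only [P1.1], by linarith only [P1.2], by linarith only [B6.1, hK]⟩
    ⟨by linarith only [P3.1], by linarith only [P3.2], by linarith only [B8.1, hK]⟩
    ⟨by linarith only [Q3.1], by linarith only [Q3.2], by linarith only [B8.1, hK]⟩
    ⟨by linarith only [Q3.1], by linarith only [Q3.2], by linarith only [B8.1, hK]⟩
    ⟨by linarith only [Q5.1], by linarith only [Q5.2], by linarith only [B10.1, hK]⟩ m D a ha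
  · have : ((n0 + n1 + n2 + n3 + n4 + 49 * K + n6 + n7 + n8 + n9 + n10 + n11 : ℕ) : ℝ) = n := by
      push_cast
      linarith only [e0, e1, e2, e3, e4, e6, e7, e8, e9, e10, e11]
    exact_mod_cast this
  · linarith only [B0.1, hK0, M1.1]
  · linarith only [B0.1, hK0, M1.2]
  · linarith only [B1.1, hK0, B0.1, B2.2, B3.2, B4.2, N1.1, M2.1, M3.1, B9.2, B10.2, B11.2]
  · linarith only [B1.1, hK0, B0.2, B2.1, B3.1, B4.1, N1.2, M2.2, M3.2, B9.1, B10.1, B11.1]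
  · linarith only [B2.1, hK0, B0.1, B1.1, B3.2, B4.2, B6.1, N2.1, N3.1, M4.1, B10.2, M6.1]
  · linarith only [B2.1, hK0, B0.2, B1.2, B3.1, B4.1, B6.2, N2.2, N3.2, M4.2, B10.1, M6.2]
  · linarith only [B3.1, hK0, B1.1, B2.1, B4.2, B7.1, N3.1, M4.1, M5.1, N6.1]
  · linarith only [B3.1, hK0, B1.2, B2.2, B4.1, B7.2, N3.2, M4.2, M5.2, N6.2]
  · linarith only [B4.1, hK0, B1.1, B2.1, B3.1, B7.1, B8.1, N4.1, N5.1, B11.1]
  · linarith only [B4.1, hK0, B1.2, B2.2, B3.2, B7.2, B8.2, N4.2, N5.2, B11.2]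
  · refine le_of_eq ?_
    simp only [e0, e1, e2, e3, e4, e6, e7, e8, e9, e10, e11, hn]
    linear_combination (-(7 * K) / 2) * hp1
  · refine le_of_eq ?_
    simp only [e0, e1, e2, e3, e4, e6, e7, e8, e9, e10, e11, hn]
    linear_combination (7 * K) / 2 * hq1 - (-2612 * (49 * K * H ^ 2) + 5642 * K + 4802 * T) / 2 * hp2
      - (799 * (49 * K * H ^ 2) - 1519 * K - 1470 * T) / 2 * hp3
  · refine le_of_mul_le_mul_right (le_of_eq ?_) hP
    simp only [e0, e1, e2, e3, e4, e6, e7, e8, e9, e10, e11, hn]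
    linear_combination (105 * H - 266) * (-2612 * (49 * K * H ^ 2) + 5642 * K + 4802 * T) / 2 * hq2
      - (105 * H - 266) * (388 * (49 * K * H ^ 2) - 3437 * K - 698 * T) / 2 * hp6
      + (799 * (49 * K * H ^ 2) - 1519 * K - 1470 * T) * (28 * H - 71) / 2 * hq3
      + (881 * (49 * K * H ^ 2) + 8372 * K - 1680 * T) * ((73 - 28 * H) / 2 - (77 * H - 194)) * hp4
  · refine le_of_mul_le_mul_right (le_of_eq ?_) hP
    simp only [e0, e1, e2, e3, e4, e6, e7, e8, e9, e10, e11, hn]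
    linear_combination (105 * H - 266) * (388 * (49 * K * H ^ 2) - 3437 * K - 698 * T) / 2 * hq6
      - (105 * H - 266) * (-2953 * (49 * K * H ^ 2) - 3682 * K + 5488 * T) / 2 * hp5
      + (799 * (49 * K * H ^ 2) - 1519 * K - 1470 * T) * ((77 * H - 193) / 2 - (72 - 28 * H)) * hq3
      - (881 * (49 * K * H ^ 2) + 8372 * K - 1680 * T) * (77 * H - 195) / 2 * hp4
  · refine le_of_eq ?_
    simp only [e0, e1, e2, e3, e4, e6, e7, e8, e9, e10, e11, hn]
    linear_combination (881 * (49 * K * H ^ 2) + 8372 * K - 1680 * T) / 2 * hq4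
      + (-2953 * (49 * K * H ^ 2) - 3682 * K + 5488 * T) / 2 * hq5

theorem exists_design {n : ℕ} (hn : 10 ^ 13 ≤ n) : ∃ s : ℕ, 1 ≤ s ∧
    ∀ (m D : ℕ) (a : ℕ → ℕ), (∀ t < D, 0 < a t → (a t : ℝ) ≤ s * (√n * m - s * t)) →
      Good (fun _ : Fin n => m) (tr D a) univ 0 := by
  have hn' : (1e13 : ℝ) ≤ n := by
    have : ((10 : ℝ) ^ 13) ≤ n := by exact_mod_cast hn
    linarith [show (1e13 : ℝ) = 10 ^ 13 by norm_num]
  have hr : √(n : ℝ) ^ 2 = n := Real.sq_sqrt n.cast_nonneg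
  have hr1 : (3162277 : ℝ) ≤ √n := Real.le_sqrt_of_sq_le (by linarith)
  generalize √(n : ℝ) = r at *
  have k1 := Nat.le_ceil (r / (7 * 2.536348))
  have k2 := Nat.ceil_lt_add_one (by positivity : 0 ≤ r / (7 * 2.536348))
  generalize ⌈r / (7 * 2.536348)⌉₊ = k at k1 k2
  rw [div_le_iff₀ (by norm_num)] at k1
  rw [← sub_lt_iff_lt_add, lt_div_iff₀ (by norm_num)] at k2
  have hk : (1e5 : ℝ) ≤ k := by linarith
  have hk0 : (0 : ℝ) < 7 * k := by linarith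
  refine ⟨7 * k, by exact_mod_cast (by push_cast; linarith : (1 : ℝ) ≤ (7 * k : ℕ)),
    fun m D a ha => window (K := k * k) (H := r / (7 * k)) ?_ ?_ ?_ ?_ m D a fun t ht h0 => ?_⟩
  · rw [← hr]
    push_cast
    field_simp
    ring
  · rw [le_div_iff₀ hk0]
    linarith
  · rw [div_le_iff₀ hk0]
    linarith
  · push_cast
    nlinarith
  · refine (ha t ht h0).trans (le_of_eq ?_)
    push_cast
    field_simp
    ring

end Pool.Agent.Lib.MP_6e81d8_ag.H93
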