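import Pool.Agent.Lib.MP_6e81d8_ag.H16.Vanish

set_option autoImplicit false

namespace Pool.Agent.Lib.MP_6e81d8_ag.H93.OldVanishingExp

theorem result :
  ∀ (n d : ℕ) (m : Fin n → ℕ), 10 ^ 80 ≤ n →
    (n : ℝ) * d < (Real.sqrt n - Real.exp (-((n : ℝ) / 10 ^ 40))) * ∑ i : Fin n, (m i : ℝ) →
    ∃ F : MvPolynomial (Fin n × Fin 2) ℂ, F ≠ 0 ∧
      ∀ p : Fin n → Fin 2 → ℂ,
        MvPolynomial.eval (fun ij : Fin n × Fin 2 => p ij.1 ij.2) F ≠ 0 →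
        MvPolynomial.restrictTotalDegree (Fin 2) ℂ d ⊓
          ⨅ i : Fin n, ((RingHom.ker (MvPolynomial.eval (p i))) ^ (m i)).restrictScalars ℂ = ⊥ :=
  fun _ _ m hn h => Pool.Agent.Lib.MP_6e81d8_ag.H16.vanish m hn h

end Pool.Agent.Lib.MP_6e81d8_ag.H93.OldVanishingExp
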